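import Pool.Agent.W2helper35.CR.Fam

set_option autoImplicit false
set_option linter.unusedSectionVars false

/-!
Birational transformations of bounded degree have reductions of finite order.
-/

namespace Pool.Agent.W2helper35.CR

open MvPolynomial

universe u v

lemma td_le_iff {R : Type u} [CommSemiring R] {n : ℕ} (q : MvPolynomial (Fin n) R) (D : ℕ) :
    q.totalDegree ≤ D ↔ ∀ s, MvPolynomial.coeff s q ≠ 0 → (s.sum fun _ e => e) ≤ D := by
  unfold MvPolynomial.totalDegree
  rw [Finset.sup_le_iff]
  exact ⟨fun h s hs => h s (MvPolynomial.mem_support_iff.2 hs),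
    fun h s hs => h s (MvPolynomial.mem_support_iff.1 hs)⟩

/-- `f` is a quotient of polynomials with exponents in `S` -/
def SupLE (k : Type u) [Field k] {n : ℕ} (S : Set (Fin n →₀ ℕ)) {F : Type u} [Field F]
    [Algebra (MvPolynomial (Fin n) k) F] (f : F) : Prop :=
  ∃ a b : MvPolynomial (Fin n) k, (∀ s, coeff s a ≠ 0 → s ∈ S) ∧ (∀ s, coeff s b ≠ 0 → s ∈ S) ∧
    b ≠ 0 ∧ f * algebraMap _ F b = algebraMap _ F a

/-- exponents of degree at most `D` -/
def dg (n D : ℕ) : Set (Fin n →₀ ℕ) := {s | (s.sum fun _ e => e) ≤ D}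

section

variable {k : Type u} [Field k] {E : Type u} [Field E] (e : E →+* k) {n : ℕ} {F : Type u} [Field F]
  [Algebra (MvPolynomial (Fin n) k) F] [IsFractionRing (MvPolynomial (Fin n) k) F]

/-- descent to the small field -/
lemma descend {S : Set (Fin n →₀ ℕ)} {g : F} (hE : InE e n g) (hD : SupLE k S g) :
    ∃ a b : MvPolynomial (Fin n) E, (∀ s, coeff s a ≠ 0 → s ∈ S) ∧
      (∀ s, coeff s b ≠ 0 → s ∈ S) ∧ b ≠ 0 ∧
      g * algebraMap (MvPolynomial (Fin n) k) F (MvPolynomial.map e b) =
        algebraMap (MvPolynomial (Fin n) k) F (MvPolynomial.map e a) := by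
  classical
  obtain ⟨a, b, hb, hab⟩ := hE
  obtain ⟨U, V, hU, hV, hV0, hUV⟩ := hD
  letI : Algebra E k := e.toAlgebra
  obtain ⟨s0, hs0⟩ := MvPolynomial.exists_coeff_ne_zero hV0
  obtain ⟨lam, hlam0⟩ : ∃ lam : Module.Dual E k, lam (coeff s0 V) ≠ 0 := by
    by_contra hcon
    push Not at hcon
    exact hs0 ((Module.forall_dual_apply_eq_zero_iff E (coeff s0 V)).1 hcon)
  let T : MvPolynomial (Fin n) k → MvPolynomial (Fin n) E := fun q =>
    ∑ s ∈ q.support, monomial s (lam (coeff s q))
  have hT : ∀ q s, coeff s (T q) = lam (coeff s q) := by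
    intro q s
    show coeff s (∑ s ∈ q.support, monomial s (lam (coeff s q))) = _
    rw [coeff_sum]
    simp only [coeff_monomial]
    rw [Finset.sum_ite_eq' q.support s (fun t => lam (coeff t q))]
    split_ifs with h
    · rfl
    · rw [MvPolynomial.notMem_support_iff.1 h, map_zero]
  have hTm : ∀ (r : MvPolynomial (Fin n) E) (q : MvPolynomial (Fin n) k),
      T (MvPolynomial.map e r * q) = r * T q := by
    intro r q
    ext s
    rw [hT, coeff_mul, coeff_mul, map_sum]
    refine Finset.sum_congr rfl fun x _ => ?_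
    rw [hT, coeff_map]
    have : e (coeff x.1 r) * coeff x.2 q = coeff x.1 r • coeff x.2 q := by
      rw [Algebra.smul_def]
      rfl
    rw [this, map_smul, smul_eq_mul]
  have hTd : ∀ (q : MvPolynomial (Fin n) k) (s : Fin n →₀ ℕ), coeff s (T q) ≠ 0 → coeff s q ≠ 0 := by
    intro q s hs h
    rw [hT, h, map_zero] at hs
    exact hs rfl
  refine ⟨T U, T V, fun s hs => hU s (hTd U s hs), fun s hs => hV s (hTd V s hs), ?_, ?_⟩
  · intro h
    have h1 := congrArg (coeff s0) h
    rw [hT, coeff_zero] at h1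
    exact hlam0 h1
  · have h1 : MvPolynomial.map e a * V = MvPolynomial.map e b * U := by
      apply IsFractionRing.injective (MvPolynomial (Fin n) k) F
      rw [map_mul, map_mul, ← hab, ← hUV]
      ring
    have h2 : a * T V = b * T U := by rw [← hTm, ← hTm, h1]
    have h3 := congrArg (fun q => algebraMap (MvPolynomial (Fin n) k) F (MvPolynomial.map e q)) h2
    simp only [map_mul] at h3
    rw [← hab] at h3
    have hne := map_ne (F := F) e hb
    apply mul_left_cancel₀ hne
    rw [← h3]
    ring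

lemma finite_deg [Finite E] (D : ℕ) : {q : MvPolynomial (Fin n) E | q.totalDegree ≤ D}.Finite := by
  have h1 : Finite {s : Fin n →₀ ℕ // s.degree ≤ D} := (Finsupp.finite_of_degree_le D).to_subtype
  let f : {q : MvPolynomial (Fin n) E | q.totalDegree ≤ D} →
      ({s : Fin n →₀ ℕ // s.degree ≤ D} → E) := fun q s => coeff s.1 q.1
  have hf : Function.Injective f := by
    rintro ⟨q, hq⟩ ⟨q', hq'⟩ h
    apply Subtype.ext
    show q = q'
    ext s
    by_cases hs : s.degree ≤ D
    · exact congrFun h ⟨s, hs⟩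
    · have e1 : s.degree = s.sum fun _ e => e := rfl
      rw [e1] at hs
      have h2 : coeff s q = 0 := by
        by_contra hne
        exact hs ((td_le_iff q D).1 hq s hne)
      have h3 : coeff s q' = 0 := by
        by_contra hne
        exact hs ((td_le_iff q' D).1 hq' s hne)
      rw [h2, h3]
  have h2 : Finite {q : MvPolynomial (Fin n) E | q.totalDegree ≤ D} := Finite.of_injective f hf
  exact Set.toFinite _

lemma finite_val [Finite E] (D : ℕ) : {g : F | InE e n g ∧ SupLE k (dg n D) g}.Finite := by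
  have h1 := finite_deg (E := E) (n := n) D
  refine ((h1.prod h1).image (fun q => algebraMap (MvPolynomial (Fin n) k) F
    (MvPolynomial.map e q.1) / algebraMap (MvPolynomial (Fin n) k) F
      (MvPolynomial.map e q.2))).subset ?_
  rintro g ⟨hE, hD⟩
  obtain ⟨a, b, ha, hb, hb0, hab⟩ := descend e hE hD
  refine ⟨(a, b), ⟨(td_le_iff _ _).2 ha, (td_le_iff _ _).2 hb⟩, ?_⟩
  show algebraMap (MvPolynomial (Fin n) k) F (MvPolynomial.map e a) / algebraMap
    (MvPolynomial (Fin n) k) F (MvPolynomial.map e b) = g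
  rw [← hab, mul_div_assoc, div_self (map_ne (F := F) e hb0), mul_one]

end

section

variable {K : Type u} [Field K] {O : ValuationSubring K} {n : ℕ}
  {L : Type u} [Field L] [Algebra (MvPolynomial (Fin n) K) L]
  [IsFractionRing (MvPolynomial (Fin n) K) L]
  [Algebra K L] [IsScalarTower K (MvPolynomial (Fin n) K) L]
  {F : Type u} [Field F] [Algebra (MvPolynomial (Fin n) (IsLocalRing.ResidueField O)) F]
  [Algebra (IsLocalRing.ResidueField O) F]
  [IsScalarTower (IsLocalRing.ResidueField O)
    (MvPolynomial (Fin n) (IsLocalRing.ResidueField O)) F]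
  [IsFractionRing (MvPolynomial (Fin n) (IsLocalRing.ResidueField O)) F]

/-- the exponents do not change by reduction -/
lemma SupLE.red {S : Set (Fin n →₀ ℕ)} (hS : (0 : Fin n →₀ ℕ) ∈ S) {f : L} {g : F}
    (hD : SupLE K S f) (h : Rel O (n := n) f g) :
    SupLE (IsLocalRing.ResidueField O) S g := by
  obtain ⟨U, V, hU, hV, hV0, hUV⟩ := hD
  obtain ⟨c, V', hc, hV', e1⟩ := content O (F := F) V hV0
  have eV : algebraMap (MvPolynomial (Fin n) K) L V = algebraMap K L c * ev O V' := by
    rw [e1, map_mul, IsScalarTower.algebraMap_apply K (MvPolynomial (Fin n) K) L]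
    rfl
  have hcL : algebraMap K L c ≠ 0 := by rwa [Ne, map_eq_zero]
  have hsup : ∀ {c : K} (_ : c ≠ 0) (q : MvPolynomial (Fin n) O) (s : Fin n →₀ ℕ),
      coeff s (MvPolynomial.map (IsLocalRing.residue O) q) ≠ 0 →
      coeff s (C c * MvPolynomial.map (algebraMap O K) q) ≠ 0 := by
    intro c hc q s hs
    rw [coeff_C_mul, coeff_map]
    refine mul_ne_zero hc (fun h => hs ?_)
    have h1 : coeff s q = 0 := Subtype.ext h
    rw [coeff_map, h1, map_zero]
  by_cases hU0 : U = 0
  · refine ⟨0, 1, ?_, ?_, one_ne_zero, ?_⟩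
    · intro s hs
      rw [coeff_zero] at hs
      exact absurd rfl hs
    · intro s hs
      rw [coeff_one] at hs
      by_cases h0 : (0 : Fin n →₀ ℕ) = s
      · rw [← h0]; exact hS
      · rw [if_neg h0] at hs
        exact absurd rfl hs
    · rw [hU0, map_zero, eV] at hUV
      have hf : f = 0 := by
        rcases mul_eq_zero.1 hUV with h1 | h1
        · exact h1
        · exact absurd h1 (mul_ne_zero hcL (ev_ne O hV'))
      rw [hf] at h
      rw [h.unique (rel_zero O L F), zero_mul, map_zero]
  · obtain ⟨d, U', hd, hU', e2⟩ := content O (F := F) U hU0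
    have eU : algebraMap (MvPolynomial (Fin n) K) L U = algebraMap K L d * ev O U' := by
      rw [e2, map_mul, IsScalarTower.algebraMap_apply K (MvPolynomial (Fin n) K) L]
      rfl
    have e3 : f * ev O V' = algebraMap K L (d / c) * ev O U' := by
      rw [eU, eV] at hUV
      rw [map_div₀, div_mul_eq_mul_div, eq_div_iff hcL, ← hUV]
      ring
    have h1 := h.mul (rel_ev O L F V')
    rw [e3] at h1
    have hmem : d / c ∈ O := const_mem hU' (rel_ev O L F U') h1
    have h2 := (rel_const (n := n) (L := L) (F := F) (⟨d / c, hmem⟩ : O)).mul (rel_ev O L F U')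
    have h3 := h1.unique h2
    refine ⟨C (IsLocalRing.residue O ⟨d / c, hmem⟩) * MvPolynomial.map (IsLocalRing.residue O) U',
      MvPolynomial.map (IsLocalRing.residue O) V', ?_, ?_, ?_, ?_⟩
    · intro s hs
      rw [coeff_C_mul] at hs
      apply hU
      rw [e2]
      exact hsup hd U' s (right_ne_zero_of_mul hs)
    · intro s hs
      apply hV
      rw [e1]
      exact hsup hc V' s hs
    · intro h4
      apply hV'
      show algebraMap _ F (MvPolynomial.map (IsLocalRing.residue O) V') = 0
      rw [h4, map_zero]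
    · rw [map_mul]
      have e4 : algebraMap (MvPolynomial (Fin n) (IsLocalRing.ResidueField O)) F
          (C (IsLocalRing.residue O ⟨d / c, hmem⟩)) =
          algebraMap (IsLocalRing.ResidueField O) F (IsLocalRing.residue O ⟨d / c, hmem⟩) :=
        (IsScalarTower.algebraMap_apply _ _ _ _).symm
      rw [e4]
      exact h3

lemma Red.pow {c : L ≃ₐ[K] L} {φ : F →ₐ[IsLocalRing.ResidueField O] F}
    (hc : Red O (n := n) c φ) (j : ℕ) : Red O (n := n) (c ^ j) (φ ^ j) := by
  induction j with
  | zero => rw [pow_zero, pow_zero]; exact Red.one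
  | succ j ih => rw [pow_succ, pow_succ]; exact ih.mul hc

/-- transformations of bounded degree on the first `m` coordinates, defined over a finite field, have
finite order there -/
theorem finite_of_bdd {E : Type u} [Field E] [Finite E] (e : E →+* IsLocalRing.ResidueField O)
    {c : L ≃ₐ[K] L} {φ : F →ₐ[IsLocalRing.ResidueField O] F}
    (hc : Red O (n := n) c φ) (hE : ∀ g, InE e n g → InE e n (φ g)) (D m : ℕ)
    (hD : ∀ (j : ℕ) (i : Fin n), i.val < m → SupLE K (dg n D)
      ((c ^ j) (algebraMap (MvPolynomial (Fin n) K) L (X i)))) :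
    ∃ N : ℕ, 1 ≤ N ∧ ∀ i : Fin n, i.val < m → (φ ^ N)
      (algebraMap (MvPolynomial (Fin n) (IsLocalRing.ResidueField O)) F (X i)) =
      algebraMap (MvPolynomial (Fin n) (IsLocalRing.ResidueField O)) F (X i) := by
  let xb : Fin n → F := fun i =>
    algebraMap (MvPolynomial (Fin n) (IsLocalRing.ResidueField O)) F (X i)
  have hx : ∀ i, Rel O (n := n) (algebraMap (MvPolynomial (Fin n) K) L (X i)) (xb i) := fun i => by
    have := rel_ev O L F (X i : MvPolynomial (Fin n) O)
    rwa [ev_X, rd_X] at this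
  have hEj : ∀ j : ℕ, ∀ g, InE e n g → InE e n ((φ ^ j) g) := by
    intro j
    induction j with
    | zero => intro g hg; rw [pow_zero]; exact hg
    | succ j ih =>
      intro g hg
      rw [pow_succ]
      exact ih _ (hE g hg)
  let W : Set F := {g : F | InE e n g ∧ SupLE (IsLocalRing.ResidueField O) (dg n D) g}
  have hW : W.Finite := finite_val e D
  have hWf : Finite W := hW.to_subtype
  have hxE : ∀ i, InE e n (xb i) := by
    intro i
    have := InE.of_map (e := e) (F := F) (X i : MvPolynomial (Fin n) E)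
    rwa [map_X] at this
  let Φ : ℕ → ({i : Fin n // i.val < m} → W) := fun j i => ⟨(φ ^ j) (xb i.1), hEj j _ (hxE i.1),
    (hD j i.1 i.2).red (by show _ ≤ D; simp) (hc.pow j _ _ (hx i.1))⟩
  obtain ⟨j, l, hjl, hlt⟩ : ∃ j l, Φ j = Φ l ∧ j < l := by
    obtain ⟨j, l, hne, h⟩ := Finite.exists_ne_map_eq_of_infinite Φ
    rcases lt_or_gt_of_ne hne with h1 | h1
    · exact ⟨j, l, h, h1⟩
    · exact ⟨l, j, h.symm, h1⟩
  refine ⟨l - j, by omega, fun i hi => ?_⟩
  have h1 : (φ ^ j) (xb i) = (φ ^ l) (xb i) := congrArg Subtype.val (congrFun hjl ⟨i, hi⟩)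
  have h4 : (φ ^ j) ((φ ^ (l - j)) (xb i)) = (φ ^ j) (xb i) := by
    have h5 : φ ^ j * φ ^ (l - j) = φ ^ l := by
      rw [← pow_add, Nat.add_sub_cancel' hlt.le]
    rw [h1]
    exact congrArg (fun ψ : F →ₐ[IsLocalRing.ResidueField O] F => ψ (xb i)) h5
  exact (φ ^ j).toRingHom.injective h4

/-- a homomorphism which fixes the coordinates is the identity -/
lemma eq_id_of_fix {k : Type u} [Field k] {G : Type u} [Field G]
    [Algebra (MvPolynomial (Fin n) k) G] [Algebra k G]
    [IsScalarTower k (MvPolynomial (Fin n) k) G] [IsFractionRing (MvPolynomial (Fin n) k) G]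
    (φ : G →ₐ[k] G) (h : ∀ i, φ (algebraMap (MvPolynomial (Fin n) k) G (X i)) =
      algebraMap (MvPolynomial (Fin n) k) G (X i)) : φ = AlgHom.id k G := by
  have h2 : ∀ q : MvPolynomial (Fin n) k, φ (algebraMap _ G q) = algebraMap _ G q := by
    intro q
    induction q using MvPolynomial.induction_on with
    | C t =>
      have : algebraMap (MvPolynomial (Fin n) k) G (C t) = algebraMap k G t :=
        (IsScalarTower.algebraMap_apply _ _ _ _).symm
      rw [this, AlgHom.commutes]
    | add p q hp hq => rw [map_add, map_add, hp, hq]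
    | mul_X p i hp => rw [map_mul, map_mul, hp, h i]
  ext g
  obtain ⟨a, b, -, rfl⟩ := IsFractionRing.div_surjective (A := MvPolynomial (Fin n) k) g
  rw [map_div₀, h2, h2]
  rfl

end

end Pool.Agent.W2helper35.CR
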