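import Pool.Agent.W2helper35.CR.Red

set_option autoImplicit false
set_option linter.unusedSectionVars false

/-!
Automorphisms which are trivial modulo the maximal ideal are not conjugate to their powers with
exponent a power of the residue characteristic.
-/

namespace Pool.Agent.W2helper35.CR

open MvPolynomial

universe u v

section content

variable {K : Type u} [Field K] (O : ValuationSubring K) {n : ℕ}
  {L : Type u} [Field L] [Algebra (MvPolynomial (Fin n) K) L]
  [IsFractionRing (MvPolynomial (Fin n) K) L]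
  {F : Type u} [Field F] [Algebra (MvPolynomial (Fin n) (IsLocalRing.ResidueField O)) F]
  [IsFractionRing (MvPolynomial (Fin n) (IsLocalRing.ResidueField O)) F]

/-- a nonzero polynomial is a constant times a primitive polynomial -/
lemma content (a : MvPolynomial (Fin n) K) (ha : a ≠ 0) :
    ∃ (c : K) (a' : MvPolynomial (Fin n) O), c ≠ 0 ∧ rd O (F := F) a' ≠ 0 ∧
      a = C c * MvPolynomial.map (algebraMap O K) a' := by
  obtain ⟨s, hs, hmax⟩ := Finset.exists_max_image a.support (fun s => O.valuation (a.coeff s))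
    (MvPolynomial.support_nonempty.2 ha)
  have hc : a.coeff s ≠ 0 := MvPolynomial.mem_support_iff.1 hs
  have hmem : C (a.coeff s)⁻¹ * a ∈ Set.range (MvPolynomial.map (σ := Fin n) (algebraMap O K)) := by
    rw [MvPolynomial.mem_range_map_iff_coeffs_subset]
    intro x hx
    rw [Finset.mem_coe, MvPolynomial.mem_coeffs_iff] at hx
    obtain ⟨t, ht, rfl⟩ := hx
    rw [coeff_C_mul]
    have h1 : O.valuation ((a.coeff s)⁻¹ * a.coeff t) ≤ 1 := by
      rw [map_mul, map_inv₀]
      have h2 : O.valuation (a.coeff t) ≤ O.valuation (a.coeff s) := by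
        by_cases h3 : a.coeff t = 0
        · rw [h3, map_zero]; exact zero_le
        · exact hmax t (MvPolynomial.mem_support_iff.2 h3)
      have h4 : O.valuation (a.coeff s) ≠ 0 := (Valuation.ne_zero_iff _).2 hc
      calc (O.valuation (a.coeff s))⁻¹ * O.valuation (a.coeff t)
          ≤ (O.valuation (a.coeff s))⁻¹ * O.valuation (a.coeff s) := mul_le_mul_right h2 _
        _ = 1 := inv_mul_cancel₀ h4
    exact ⟨⟨_, (O.valuation_le_one_iff _).1 h1⟩, rfl⟩
  obtain ⟨a', ha'⟩ := hmem
  refine ⟨a.coeff s, a', hc, ?_, ?_⟩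
  · intro h
    have h1 : MvPolynomial.map (IsLocalRing.residue O) a' = 0 :=
      IsFractionRing.injective _ F (h.trans (map_zero _).symm)
    have h2 := congrArg (coeff s) h1
    rw [coeff_map, coeff_zero] at h2
    have h3 : algebraMap O K (a'.coeff s) = 1 := by
      have h4 := congrArg (coeff s) ha'
      rw [coeff_C_mul, inv_mul_cancel₀ hc] at h4
      rw [← h4]
      exact (coeff_map _ _ _).symm
    have h4 : a'.coeff s = 1 := by
      apply IsFractionRing.injective O K
      rw [h3, map_one]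
    rw [h4, map_one] at h2
    exact one_ne_zero h2
  · have h1 : MvPolynomial.map (algebraMap O K) a' = C (a.coeff s)⁻¹ * a := ha'
    rw [h1, ← mul_assoc, ← C_mul, mul_inv_cancel₀ hc, C_1, one_mul]

end content

variable {K : Type u} [Field K] {O : ValuationSubring K} {n : ℕ}
  {L : Type u} [Field L] [Algebra (MvPolynomial (Fin n) K) L]
  [IsFractionRing (MvPolynomial (Fin n) K) L]
  [Algebra K L] [IsScalarTower K (MvPolynomial (Fin n) K) L]
  {F : Type u} [Field F] [Algebra (MvPolynomial (Fin n) (IsLocalRing.ResidueField O)) F]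
  [Algebra (IsLocalRing.ResidueField O) F]
  [IsScalarTower (IsLocalRing.ResidueField O)
    (MvPolynomial (Fin n) (IsLocalRing.ResidueField O)) F]
  [IsFractionRing (MvPolynomial (Fin n) (IsLocalRing.ResidueField O)) F]

/-- a nonzero element of `L` is a constant times a unit of the local ring -/
lemma exists_unit (f : L) (hf : f ≠ 0) :
    ∃ (c : K) (e : L) (g : F), c ≠ 0 ∧ g ≠ 0 ∧ Rel O (n := n) e g ∧ f = algebraMap K L c * e := by
  obtain ⟨a, b, hb, rfl⟩ := IsFractionRing.div_surjective (A := MvPolynomial (Fin n) K) f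
  have hb0 : b ≠ 0 := nonZeroDivisors.ne_zero hb
  have ha0 : a ≠ 0 := by
    rintro rfl
    rw [map_zero, zero_div] at hf
    exact hf rfl
  obtain ⟨c, a', hc, ha', h1⟩ := content O (F := F) a ha0
  obtain ⟨d, b', hd, hb', h2⟩ := content O (F := F) b hb0
  refine ⟨c / d, ev O a' / ev O b', rd O a' / rd O b', div_ne_zero hc hd, div_ne_zero ha' hb',
    (rel_ev O L F a').div (rel_ev O L F b') hb', ?_⟩
  have e1 : algebraMap (MvPolynomial (Fin n) K) L a = algebraMap K L c * ev O a' := by
    rw [h1, map_mul, IsScalarTower.algebraMap_apply K (MvPolynomial (Fin n) K) L]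
    rfl
  have e2 : algebraMap (MvPolynomial (Fin n) K) L b = algebraMap K L d * ev O b' := by
    rw [h2, map_mul, IsScalarTower.algebraMap_apply K (MvPolynomial (Fin n) K) L]
    rfl
  rw [e1, e2, map_div₀, mul_div_mul_comm]

/-- the constant is integral -/
lemma const_mem {c : K} {e : L} {g g' : F} (hg : g ≠ 0) (he : Rel O (n := n) e g)
    (h : Rel O (n := n) (algebraMap K L c * e) g') : c ∈ O := by
  by_contra hc
  have h1 : c⁻¹ ∈ O := (O.mem_or_inv_mem c).resolve_left hc
  have hc0 : c ≠ 0 := by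
    rintro rfl
    exact hc O.zero_mem
  have h2 : IsLocalRing.residue O ⟨c⁻¹, h1⟩ = 0 := by
    rw [IsLocalRing.residue_eq_zero_iff, IsLocalRing.mem_maximalIdeal, mem_nonunits_iff]
    intro h3
    obtain ⟨⟨d, hd⟩, hd2⟩ := h3.exists_right_inv
    have h4 : c⁻¹ * d = 1 := congrArg Subtype.val hd2
    have h5 : d = c := by
      field_simp at h4
      exact h4
    exact hc (h5 ▸ hd)
  have h3 : Rel O (n := n) (algebraMap K L ((⟨c⁻¹, h1⟩ : O) : K)) (0 : F) := by
    have := rel_const (n := n) (L := L) (F := F) (⟨c⁻¹, h1⟩ : O)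
    rwa [h2, map_zero] at this
  have h4 := h3.mul h
  rw [← mul_assoc, ← map_mul, inv_mul_cancel₀ hc0, map_one, one_mul, zero_mul] at h4
  exact hg (he.unique h4)

/-- the constant is in the maximal ideal -/
lemma const_max {c : O} {e : L} {g : F} (hg : g ≠ 0) (he : Rel O (n := n) e g)
    (h : Rel O (n := n) (algebraMap K L c * e) (0 : F)) : IsLocalRing.residue O c = 0 := by
  have h1 := (rel_const (n := n) (L := L) (F := F) c).mul he
  have h2 := h1.unique h
  rcases mul_eq_zero.1 h2 with h3 | h3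
  · exact (map_eq_zero _).1 h3
  · exact absurd h3 hg

variable (F) in
/-- `f` is in the local ring -/
def InB (O : ValuationSubring K) {n : ℕ}
    {L : Type u} [Field L] [Algebra (MvPolynomial (Fin n) K) L]
    (F : Type u) [Field F] [Algebra (MvPolynomial (Fin n) (IsLocalRing.ResidueField O)) F]
    (f : L) : Prop := ∃ g : F, Rel O (n := n) f g

/-- `c` is the identity modulo `a` -/
def Gam (O : ValuationSubring K) {n : ℕ}
    {L : Type u} [Field L] [Algebra (MvPolynomial (Fin n) K) L] [Algebra K L]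
    (F : Type u) [Field F] [Algebra (MvPolynomial (Fin n) (IsLocalRing.ResidueField O)) F]
    (a : O) (c : L ≃ₐ[K] L) : Prop :=
  ∀ f : L, InB O (n := n) F f → ∃ f' : L, InB O (n := n) F f' ∧
    c f = f + algebraMap K L a * f'

omit [IsFractionRing (MvPolynomial (Fin n) K) L] in
lemma InB.add {f f' : L} (h : InB O (n := n) F f) (h' : InB O (n := n) F f') :
    InB O (n := n) F (f + f') := ⟨_, h.choose_spec.add h'.choose_spec⟩

omit [IsFractionRing (MvPolynomial (Fin n) K) L] in
lemma InB.mul {f f' : L} (h : InB O (n := n) F f) (h' : InB O (n := n) F f') :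
    InB O (n := n) F (f * f') := ⟨_, h.choose_spec.mul h'.choose_spec⟩

omit [IsFractionRing (MvPolynomial (Fin n) K) L] in
lemma InB.neg {f : L} (h : InB O (n := n) F f) :
    InB O (n := n) F (-f) := ⟨_, h.choose_spec.neg⟩

lemma InB.const (t : O) : InB O (n := n) F (algebraMap K L t) := ⟨_, rel_const t⟩

lemma InB.natCast (m : ℕ) : InB O (n := n) F (m : L) := by
  have h := InB.const (n := n) (L := L) (F := F) (m : O)
  have e : algebraMap K L ((m : O) : K) = (m : L) := by
    rw [show (((m : ℕ) : O) : K) = (m : K) from map_natCast (algebraMap O K) m, map_natCast]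
  rwa [e] at h

lemma InB.map {f : L} (h : InB O (n := n) F f) {c : L ≃ₐ[K] L}
    {φ : F →ₐ[IsLocalRing.ResidueField O] F} (hc : Red O (n := n) c φ) :
    InB O (n := n) F (c f) := ⟨_, hc _ _ h.choose_spec⟩

/-- depth of a nontrivial automorphism which is trivial modulo the maximal ideal -/
lemma exists_depth {c : L ≃ₐ[K] L}
    (hc : Red O (n := n) c (AlgHom.id (IsLocalRing.ResidueField O) F)) (hne : c ≠ 1) :
    ∃ a : O, a ≠ 0 ∧ IsLocalRing.residue O a = 0 ∧ Gam O (n := n) F a c ∧
      ∃ (f e : L) (g : F), InB O (n := n) F f ∧ g ≠ 0 ∧ Rel O (n := n) e g ∧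
        c f = f + algebraMap K L a * e := by
  classical
  let x : Fin n → L := fun i => algebraMap (MvPolynomial (Fin n) K) L (X i)
  have hx : ∀ i, Rel O (n := n) (x i) (rd O (X i) : F) := fun i => by
    have := rel_ev O L F (X i : MvPolynomial (Fin n) O)
    rwa [ev_X] at this
  have hd : ∀ i, Rel O (n := n) (c (x i) - x i) (0 : F) := fun i => by
    have := (hc _ _ (hx i)).sub (hx i)
    rwa [AlgHom.id_apply, sub_self] at this
  -- some coordinate is moved
  have hex : ∃ i, c (x i) - x i ≠ 0 := by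
    by_contra hcon
    push Not at hcon
    apply hne
    have h1 : ∀ p : MvPolynomial (Fin n) K, c (algebraMap _ L p) = algebraMap _ L p := by
      intro p
      induction p using MvPolynomial.induction_on with
      | C t =>
        have : algebraMap (MvPolynomial (Fin n) K) L (C t) = algebraMap K L t :=
          (IsScalarTower.algebraMap_apply K (MvPolynomial (Fin n) K) L t).symm
        rw [this, c.commutes]
      | add p q hp hq => rw [map_add, map_add, hp, hq]
      | mul_X p i hp => rw [map_mul, map_mul, hp, sub_eq_zero.1 (hcon i)]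
    ext f
    obtain ⟨a, b, hb, rfl⟩ := IsFractionRing.div_surjective (A := MvPolynomial (Fin n) K) f
    rw [map_div₀, h1, h1]
    rfl
  have hun : ∀ i, ∃ (a : K) (e : L) (g : F), g ≠ 0 ∧ Rel O (n := n) e g ∧
      (c (x i) - x i ≠ 0 → a ≠ 0) ∧ (c (x i) - x i = 0 → a = 0) ∧
      c (x i) - x i = algebraMap K L a * e := by
    intro i
    by_cases h0 : c (x i) - x i = 0
    · refine ⟨0, 1, 1, one_ne_zero, rel_one O L F, fun h => absurd h0 h, fun _ => rfl, ?_⟩
      rw [h0, map_zero, zero_mul]
    · obtain ⟨a, e, g, ha, hg, he, h1⟩ := exists_unit (O := O) (n := n) (F := F) _ h0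
      exact ⟨a, e, g, hg, he, fun _ => ha, fun h => absurd h h0, h1⟩
  choose a e g hg he ha ha' hae using hun
  obtain ⟨i1, hi1⟩ := hex
  obtain ⟨i0, -, hmax⟩ := Finset.exists_max_image (Finset.univ : Finset (Fin n))
    (fun i => O.valuation (a i)) ⟨i1, Finset.mem_univ _⟩
  have hi0 : a i0 ≠ 0 := by
    intro h0
    have h1 := hmax i1 (Finset.mem_univ _)
    rw [h0, map_zero, le_zero_iff, Valuation.zero_iff] at h1
    exact ha i1 hi1 h1
  have hmem : a i0 ∈ O := by
    apply const_mem (n := n) (hg i0) (he i0) (g' := 0)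
    rw [← hae]
    exact hd i0
  let A : O := ⟨a i0, hmem⟩
  have hA : algebraMap K L (A : K) ≠ 0 := by
    rw [Ne, map_eq_zero]
    exact hi0
  have hAres : IsLocalRing.residue O A = 0 := by
    apply const_max (n := n) (hg i0) (he i0)
    have := hd i0
    rwa [hae] at this
  have hdiv : ∀ i, ∃ f' : L, InB O (n := n) F f' ∧ c (x i) = x i + algebraMap K L A * f' := by
    intro i
    have h1 : O.valuation (a i / a i0) ≤ 1 := by
      rw [map_div₀]
      apply div_le_one_of_le₀
      · exact hmax i (Finset.mem_univ _)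
      · exact zero_le
    have h2 : a i / a i0 ∈ O := (O.valuation_le_one_iff _).1 h1
    refine ⟨algebraMap K L (a i / a i0) * e i, ?_, ?_⟩
    · exact (InB.const (⟨_, h2⟩ : O)).mul ⟨_, he i⟩
    · have h3 : a i = a i0 * (a i / a i0) := by
        field_simp
      have h4 := hae i
      rw [h3, map_mul, mul_assoc] at h4
      rw [← h4]
      ring
  refine ⟨A, fun h => hi0 (congrArg Subtype.val h), hAres, ?_, x i0, e i0, g i0,
    ⟨_, hx i0⟩, hg i0, he i0, ?_⟩
  · -- the subring of elements which are moved by multiples of `A`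
    have key : ∀ p : MvPolynomial (Fin n) O, ∃ f' : L, InB O (n := n) F f' ∧
        c (ev O p) = ev O p + algebraMap K L A * f' := by
      intro p
      induction p using MvPolynomial.induction_on with
      | C t =>
        refine ⟨0, ⟨0, rel_zero O L F⟩, ?_⟩
        rw [ev_C, c.commutes, mul_zero, add_zero]
      | add p q hp hq =>
        obtain ⟨f1, h1, e1⟩ := hp
        obtain ⟨f2, h2, e2⟩ := hq
        refine ⟨f1 + f2, h1.add h2, ?_⟩
        rw [map_add, map_add, e1, e2]
        ring
      | mul_X p i hp =>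
        obtain ⟨f1, h1, e1⟩ := hp
        obtain ⟨f2, h2, e2⟩ := hdiv i
        refine ⟨f1 * x i + ev O p * f2 + algebraMap K L A * (f1 * f2), ?_, ?_⟩
        · exact ((h1.mul ⟨_, hx i⟩).add (InB.mul ⟨_, rel_ev O L F p⟩ h2)).add
            ((InB.const A).mul (h1.mul h2))
        · have e3 : ev O (X i : MvPolynomial (Fin n) O) = x i := ev_X i
          rw [map_mul, map_mul, e3, e1, e2]
          ring
    rintro f ⟨gg, p, q, hq, h1, h2⟩
    obtain ⟨f1, hf1, e1⟩ := key p
    obtain ⟨f2, hf2, e2⟩ := key q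
    have hq0 : ev O (L := L) q ≠ 0 := ev_ne O hq
    -- `c q` has the same reduction as `q`
    have hcq : Rel O (n := n) (c (ev O q)) (rd O q : F) := hc _ _ (rel_ev O L F q)
    have hcq0 : c (ev O q) ≠ 0 := hcq.ne_zero hq
    have ef : f = ev O p / ev O q := by rw [eq_div_iff hq0, h1]
    refine ⟨(f1 - f * f2) / c (ev O q), ?_, ?_⟩
    · obtain ⟨g1, hg1⟩ := hf1
      obtain ⟨g2, hg2⟩ := hf2
      have hfg : Rel O (n := n) f gg := ⟨p, q, hq, h1, h2⟩
      exact ⟨_, (hg1.sub (hfg.mul hg2)).div hcq hq⟩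
    · have e3 : c f = c (ev O p) / c (ev O q) := by rw [ef, map_div₀]
      rw [e3, div_eq_iff hcq0, e1, ← h1, add_mul, mul_assoc, div_mul_cancel₀ _ hcq0, e2]
      ring
  · rw [← hae i0]
    ring

/-- powers -/
lemma Gam.pow_aux {a : O} {c : L ≃ₐ[K] L} {φ : F →ₐ[IsLocalRing.ResidueField O] F}
    (hc : Red O (n := n) c φ) (h : Gam O (n := n) F a c) (f : L)
    (hf : InB O (n := n) F f) :
    ∃ f1 : L, InB O (n := n) F f1 ∧ ∀ m : ℕ, ∃ f2 : L, InB O (n := n) F f2 ∧
      (c ^ m) f = f + algebraMap K L a * (m * f1) + algebraMap K L a ^ 2 * f2 := by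
  obtain ⟨f1, hf1, e1⟩ := h f hf
  obtain ⟨f3, hf3, e3⟩ := h f1 hf1
  refine ⟨f1, hf1, fun m => ?_⟩
  induction m with
  | zero =>
    refine ⟨0, ⟨0, rel_zero O L F⟩, ?_⟩
    rw [pow_zero, Nat.cast_zero, zero_mul, mul_zero, mul_zero, add_zero, add_zero]
    rfl
  | succ m ih =>
    obtain ⟨f2, hf2, e2⟩ := ih
    refine ⟨m * f3 + c f2, ((InB.natCast m).mul hf3).add (hf2.map hc), ?_⟩
    have e4 : (c ^ (m + 1)) f = c ((c ^ m) f) := by
      rw [pow_succ', AlgEquiv.mul_apply]
    rw [e4, e2, map_add, map_add, map_mul, map_mul, map_mul, map_pow, c.commutes, map_natCast, e1,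
      e3]
    push_cast
    ring

lemma Gam.pow {a : O} {c : L ≃ₐ[K] L} {φ : F →ₐ[IsLocalRing.ResidueField O] F}
    (hc : Red O (n := n) c φ) (h : Gam O (n := n) F a c) (m : ℕ) :
    Gam O (n := n) F a (c ^ m) := by
  intro f hf
  obtain ⟨f1, hf1, h1⟩ := h.pow_aux hc f hf
  obtain ⟨f2, hf2, h2⟩ := h1 m
  refine ⟨m * f1 + algebraMap K L a * f2, ((InB.natCast m).mul hf1).add
    ((InB.const a).mul hf2), ?_⟩
  rw [h2]
  ring

/-- the `p`-th power is deeper -/
lemma Gam.pow_p {a b a' p' : O} {p : ℕ} (hp : (p : K) = b * p') (ha : (a : K) = b * a')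
    {c : L ≃ₐ[K] L} {φ : F →ₐ[IsLocalRing.ResidueField O] F}
    (hc : Red O (n := n) c φ) (h : Gam O (n := n) F a c) :
    Gam O (n := n) F (a * b) (c ^ p) := by
  intro f hf
  obtain ⟨f1, hf1, h1⟩ := h.pow_aux hc f hf
  obtain ⟨f2, hf2, h2⟩ := h1 p
  refine ⟨algebraMap K L p' * f1 + algebraMap K L a' * f2, ((InB.const p').mul hf1).add
    ((InB.const a').mul hf2), ?_⟩
  have e1 : (p : L) = algebraMap K L b * algebraMap K L p' := by
    rw [← map_mul, ← hp, map_natCast]
  have e2 : algebraMap K L ((a * b : O) : K) = algebraMap K L a * algebraMap K L b := by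
    rw [← map_mul]
    rfl
  have e3 : algebraMap K L (a : K) ^ 2 =
      algebraMap K L a * (algebraMap K L b * algebraMap K L a') := by
    rw [← map_mul, ← ha, pow_two]
  rw [h2, e1, e2, e3]
  ring

lemma Gam.conj {a : O} {c h : L ≃ₐ[K] L} {φ ψ : F →ₐ[IsLocalRing.ResidueField O] F}
    (hh : Red O (n := n) h φ) (hh' : Red O (n := n) h⁻¹ ψ) (hg : Gam O (n := n) F a c) :
    Gam O (n := n) F a (h * c * h⁻¹) := by
  intro f hf
  obtain ⟨f', hf', e⟩ := hg (h⁻¹ f) (hf.map hh')
  refine ⟨h f', hf'.map hh, ?_⟩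
  have e1 : (h * c * h⁻¹) f = h (c (h⁻¹ f)) := rfl
  have e2 : h (h⁻¹ f) = f := by
    have : (h * h⁻¹) f = f := by rw [mul_inv_cancel]; rfl
    exact this
  rw [e1, e, map_add, map_mul, h.commutes, e2]

/-- an automorphism which is trivial modulo the maximal ideal and conjugate to its power with
exponent `p ^ J` is trivial -/
theorem eq_one_of_conj {p J : ℕ} (hJ : 1 ≤ J) (hp : IsLocalRing.residue O (p : O) = 0)
    {c h : L ≃ₐ[K] L} {φ ψ : F →ₐ[IsLocalRing.ResidueField O] F}
    (hc : Red O (n := n) c (AlgHom.id (IsLocalRing.ResidueField O) F))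
    (hh : Red O (n := n) h φ) (hh' : Red O (n := n) h⁻¹ ψ)
    (hconj : h * c ^ p ^ J * h⁻¹ = c) : c = 1 := by
  by_contra hne
  obtain ⟨a, ha0, hares, hg, f, e, g, hf, hg0, he, hcf⟩ := exists_depth hc hne
  -- a common divisor of `p` and `a`
  obtain ⟨b, p', a', hb, h1, h2⟩ : ∃ b p' a' : O, IsLocalRing.residue O b = 0 ∧
      (p : K) = b * p' ∧ (a : K) = b * a' := by
    have hpK : ((p : O) : K) = (p : K) := map_natCast (algebraMap O K) p
    rcases le_total (O.valuation (p : K)) (O.valuation (a : K)) with hle | hle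
    · have haK : (a : K) ≠ 0 := fun h => ha0 (Subtype.ext h)
      have h3 : O.valuation ((p : K) / a) ≤ 1 := by
        rw [map_div₀]
        exact div_le_one_of_le₀ hle (zero_le)
      refine ⟨a, ⟨_, (O.valuation_le_one_iff _).1 h3⟩, 1, hares, ?_, ?_⟩
      · show (p : K) = a * ((p : K) / a)
        field_simp
      · show (a : K) = a * 1
        rw [mul_one]
    · by_cases hp0 : (p : K) = 0
      · exfalso
        rw [hp0, map_zero, le_zero_iff, Valuation.zero_iff] at hle
        exact ha0 (Subtype.ext hle)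
      · have h3 : O.valuation ((a : K) / p) ≤ 1 := by
          rw [map_div₀]
          exact div_le_one_of_le₀ hle (zero_le)
        refine ⟨(p : O), 1, ⟨_, (O.valuation_le_one_iff _).1 h3⟩, hp, ?_, ?_⟩
        · rw [hpK]
          show (p : K) = p * 1
          rw [mul_one]
        · rw [hpK]
          show (a : K) = p * ((a : K) / p)
          field_simp
  have h3 : Gam O (n := n) F (a * b) (c ^ p ^ J) := by
    obtain ⟨j, rfl⟩ : ∃ j, J = j + 1 := ⟨J - 1, by omega⟩
    rw [pow_succ', pow_mul]
    have hcp : Red O (n := n) (c ^ p) (AlgHom.id (IsLocalRing.ResidueField O) F) := by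
      have : ∀ m : ℕ, Red O (n := n) (c ^ m) (AlgHom.id (IsLocalRing.ResidueField O) F) := by
        intro m
        induction m with
        | zero => rw [pow_zero]; exact Red.one
        | succ m ih =>
          rw [pow_succ]
          exact ih.mul hc
      exact this p
    exact (hg.pow_p h1 h2 hc).pow hcp _
  have h4 : Gam O (n := n) F (a * b) c := by
    have := h3.conj hh hh'
    rwa [hconj] at this
  obtain ⟨f', ⟨g', hf'⟩, e1⟩ := h4 f hf
  have e2 : algebraMap K L (a : K) * e = algebraMap K L (a : K) * (algebraMap K L (b : K) * f') := by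
    have h5 : algebraMap K L ((a * b : O) : K) = algebraMap K L a * algebraMap K L b := by
      rw [← map_mul]
      rfl
    rw [hcf, h5] at e1
    linear_combination e1
  have hA : algebraMap K L (a : K) ≠ 0 := by
    rw [Ne, map_eq_zero]
    exact fun h => ha0 (Subtype.ext h)
  have e3 : e = algebraMap K L (b : K) * f' := mul_left_cancel₀ hA e2
  have h6 := (rel_const (n := n) (L := L) (F := F) b).mul hf'
  rw [← e3, hb, map_zero, zero_mul] at h6
  exact hg0 (he.unique h6)

end Pool.Agent.W2helper35.CR
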