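import Pool.Agent.W2helper35.CR.Bdd

set_option autoImplicit false
set_option linter.unusedSectionVars false

/-!
Degrees of compositions; elements with exponential growth of the degrees are not conjugate to proper
powers.
-/

namespace Pool.Agent.W2helper35.CR

open MvPolynomial

universe u v

section

variable {K : Type u} [Field K] {n : ℕ}
  {L : Type u} [Field L] [Algebra (MvPolynomial (Fin n) K) L]
  [IsFractionRing (MvPolynomial (Fin n) K) L]
  [Algebra K L] [IsScalarTower K (MvPolynomial (Fin n) K) L]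

/-- `f` is a quotient of polynomials of degree at most `D` -/
def DegLE (K : Type u) [Field K] (n D : ℕ) {L : Type u} [Field L]
    [Algebra (MvPolynomial (Fin n) K) L] (f : L) : Prop :=
  ∃ a b : MvPolynomial (Fin n) K, a.totalDegree ≤ D ∧ b.totalDegree ≤ D ∧ b ≠ 0 ∧
    f * algebraMap _ L b = algebraMap _ L a

omit [IsFractionRing (MvPolynomial (Fin n) K) L] [Algebra K L]
  [IsScalarTower K (MvPolynomial (Fin n) K) L] in
lemma DegLE.sup {D : ℕ} {f : L} (h : DegLE K n D f) : SupLE K (dg n D) f := by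
  obtain ⟨a, b, ha, hb, hb0, h1⟩ := h
  exact ⟨a, b, (td_le_iff _ _).1 ha, (td_le_iff _ _).1 hb, hb0, h1⟩

lemma alg_ne {b : MvPolynomial (Fin n) K} (hb : b ≠ 0) :
    algebraMap (MvPolynomial (Fin n) K) L b ≠ 0 := by
  rwa [Ne, IsFractionRing.to_map_eq_zero_iff]

lemma DegLE.comp {D D' : ℕ} {f : L} (hf : DegLE K n D f) (h : L ≃ₐ[K] L)
    (hh : ∀ i : Fin n, DegLE K n D' (h (algebraMap (MvPolynomial (Fin n) K) L (X i)))) :
    DegLE K n (n * D' * D) (h f) := by
  classical
  choose u v hu hv hv0 huv using hh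
  let W : MvPolynomial (Fin n) K := ∏ i, v i
  let w : Fin n → MvPolynomial (Fin n) K := fun i => u i * ∏ j ∈ Finset.univ.erase i, v j
  have hW0 : W ≠ 0 := Finset.prod_ne_zero_iff.2 fun i _ => hv0 i
  have hWd : W.totalDegree ≤ n * D' := by
    refine (totalDegree_finsetProd _ _).trans ?_
    calc ∑ i : Fin n, (v i).totalDegree ≤ ∑ _i : Fin n, D' := Finset.sum_le_sum fun i _ => hv i
      _ = n * D' := by simp
  have hwd : ∀ i, (w i).totalDegree ≤ n * D' := by
    intro i
    refine (totalDegree_mul _ _).trans ?_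
    have h1 : (∏ j ∈ Finset.univ.erase i, v j).totalDegree ≤ (n - 1) * D' := by
      refine (totalDegree_finsetProd _ _).trans ?_
      calc ∑ j ∈ Finset.univ.erase i, (v j).totalDegree ≤ ∑ _j ∈ Finset.univ.erase i, D' :=
            Finset.sum_le_sum fun j _ => hv j
        _ = (n - 1) * D' := by simp
    have hn : 1 ≤ n := by have := i.2; omega
    calc (u i).totalDegree + (∏ j ∈ Finset.univ.erase i, v j).totalDegree ≤ D' + (n - 1) * D' :=
          Nat.add_le_add (hu i) h1
      _ = n * D' := by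
        obtain ⟨k, rfl⟩ : ∃ k, n = k + 1 := ⟨n - 1, by omega⟩
        rw [Nat.add_sub_cancel]
        ring
  have hw : ∀ i, h (algebraMap (MvPolynomial (Fin n) K) L (X i)) * algebraMap _ L W =
      algebraMap _ L (w i) := by
    intro i
    show _ * algebraMap _ L (∏ j, v j) = algebraMap _ L (u i * ∏ j ∈ Finset.univ.erase i, v j)
    rw [← Finset.mul_prod_erase Finset.univ v (Finset.mem_univ i), map_mul, map_mul, ← huv i]
    ring
  -- homogenization
  let T : MvPolynomial (Fin n) K → MvPolynomial (Fin n) K := fun a =>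
    ∑ s ∈ a.support, C (coeff s a) * (∏ i, w i ^ s i) * W ^ (D - s.sum fun _ e => e)
  have hT : ∀ a : MvPolynomial (Fin n) K, a.totalDegree ≤ D →
      algebraMap _ L (T a) = h (algebraMap _ L a) * algebraMap _ L W ^ D := by
    intro a ha
    show algebraMap _ L (∑ s ∈ a.support, C (coeff s a) * (∏ i, w i ^ s i) *
      W ^ (D - s.sum fun _ e => e)) = _
    conv_rhs => rw [a.as_sum, map_sum, map_sum, Finset.sum_mul]
    rw [map_sum]
    refine Finset.sum_congr rfl fun s hs => ?_
    have hsD : (s.sum fun _ e => e) ≤ D :=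
      (td_le_iff a D).1 ha s (MvPolynomial.mem_support_iff.1 hs)
    have hC : algebraMap (MvPolynomial (Fin n) K) L (C (coeff s a)) = algebraMap K L (coeff s a) :=
      (IsScalarTower.algebraMap_apply _ _ _ _).symm
    have hprod : ∏ i, (algebraMap (MvPolynomial (Fin n) K) L (w i)) ^ s i =
        (∏ i, (h (algebraMap (MvPolynomial (Fin n) K) L (X i))) ^ s i) *
          algebraMap _ L W ^ (s.sum fun _ e => e) := by
      have hsum : (s.sum fun _ e => e) = ∑ i, s i := Finsupp.sum_fintype _ _ (fun _ => rfl)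
      rw [hsum, ← Finset.prod_pow_eq_pow_sum, ← Finset.prod_mul_distrib]
      refine Finset.prod_congr rfl fun i _ => ?_
      rw [← hw i, mul_pow]
    rw [monomial_eq, Finsupp.prod_fintype _ _ (fun i => pow_zero _)]
    rw [map_mul, map_mul, map_mul, map_mul, map_prod, map_prod, map_prod, map_pow, hC, h.commutes]
    simp only [map_pow]
    rw [hprod]
    have e1 : algebraMap (MvPolynomial (Fin n) K) L W ^ D =
        algebraMap _ L W ^ (s.sum fun _ e => e) * algebraMap _ L W ^ (D - s.sum fun _ e => e) := by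
      rw [← pow_add, Nat.add_sub_cancel' hsD]
    rw [e1]
    ring
  have hTd : ∀ a : MvPolynomial (Fin n) K, a.totalDegree ≤ D →
      (T a).totalDegree ≤ n * D' * D := by
    intro a ha
    refine totalDegree_finsetSum_le fun s hs => ?_
    have hsD : (s.sum fun _ e => e) ≤ D :=
      (td_le_iff a D).1 ha s (MvPolynomial.mem_support_iff.1 hs)
    have hsum : (s.sum fun _ e => e) = ∑ i, s i := Finsupp.sum_fintype _ _ (fun _ => rfl)
    refine (totalDegree_mul _ _).trans ?_
    have h1 : (C (coeff s a) * ∏ i, w i ^ s i).totalDegree ≤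
        (n * D') * (s.sum fun _ e => e) := by
      refine (totalDegree_mul _ _).trans ?_
      rw [totalDegree_C, zero_add]
      refine (totalDegree_finsetProd _ _).trans ?_
      rw [hsum, Finset.mul_sum]
      refine Finset.sum_le_sum fun i _ => ?_
      refine (totalDegree_pow _ _).trans ?_
      rw [mul_comm]
      exact Nat.mul_le_mul_right _ (hwd i)
    have h2 : (W ^ (D - s.sum fun _ e => e)).totalDegree ≤
        (n * D') * (D - s.sum fun _ e => e) := by
      refine (totalDegree_pow _ _).trans ?_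
      rw [mul_comm]
      exact Nat.mul_le_mul_right _ hWd
    calc _ ≤ (n * D') * (s.sum fun _ e => e) + (n * D') * (D - s.sum fun _ e => e) :=
          Nat.add_le_add h1 h2
      _ = n * D' * D := by rw [← Nat.mul_add, Nat.add_sub_cancel' hsD]
  obtain ⟨a, b, ha, hb, hb0, hab⟩ := hf
  refine ⟨T a, T b, hTd a ha, hTd b hb, ?_, ?_⟩
  · intro h0
    have h1 := hT b hb
    rw [h0, map_zero] at h1
    have h2 : h (algebraMap _ L b) ≠ 0 := by
      rw [Ne, map_eq_zero_iff _ h.injective]
      exact alg_ne hb0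
    exact (mul_ne_zero h2 (pow_ne_zero D (alg_ne hW0))) h1.symm
  · rw [hT a ha, hT b hb, ← hab, map_mul]
    ring

/-- the degree of an automorphism is at most `D` -/
def AutDeg (K : Type u) [Field K] (n D : ℕ) {L : Type u} [Field L]
    [Algebra (MvPolynomial (Fin n) K) L] [Algebra K L] (h : L ≃ₐ[K] L) : Prop :=
  ∀ i : Fin n, DegLE K n D (h (algebraMap (MvPolynomial (Fin n) K) L (X i)))

lemma AutDeg.mul {D D' : ℕ} {h h' : L ≃ₐ[K] L} (hh : AutDeg K n D h) (hh' : AutDeg K n D' h') :
    AutDeg K n (n * D * D') (h * h') := fun i => (hh' i).comp h hh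

lemma exists_autDeg (h : L ≃ₐ[K] L) : ∃ D : ℕ, AutDeg K n D h := by
  classical
  have hex : ∀ i : Fin n, ∃ U V : MvPolynomial (Fin n) K, V ≠ 0 ∧
      h (algebraMap (MvPolynomial (Fin n) K) L (X i)) * algebraMap _ L V = algebraMap _ L U := by
    intro i
    obtain ⟨a, b, hb, hab⟩ := IsFractionRing.div_surjective (A := MvPolynomial (Fin n) K)
      (h (algebraMap (MvPolynomial (Fin n) K) L (X i)))
    exact ⟨a, b, nonZeroDivisors.ne_zero hb,
      by rw [← hab, div_mul_cancel₀ _ (alg_ne (nonZeroDivisors.ne_zero hb))]⟩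
  choose U V hV hUV using hex
  refine ⟨∑ i, ((U i).totalDegree + (V i).totalDegree), fun i => ⟨U i, V i, ?_, ?_, hV i, hUV i⟩⟩
  · exact (Nat.le_add_right _ _).trans
      (Finset.single_le_sum (f := fun i => (U i).totalDegree + (V i).totalDegree)
        (fun _ _ => Nat.zero_le _) (Finset.mem_univ i))
  · exact (Nat.le_add_left _ _).trans
      (Finset.single_le_sum (f := fun i => (U i).totalDegree + (V i).totalDegree)
        (fun _ _ => Nat.zero_le _) (Finset.mem_univ i))

lemma AutDeg.one : AutDeg K n 1 (1 : L ≃ₐ[K] L) := by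
  intro i
  refine ⟨X i, 1, ?_, ?_, one_ne_zero, ?_⟩
  · rw [totalDegree_X]
  · rw [totalDegree_one]; exact Nat.zero_le _
  · rw [map_one, mul_one]
    rfl

lemma AutDeg.pow {D : ℕ} {h : L ≃ₐ[K] L} (hh : AutDeg K n D h) (j : ℕ) :
    AutDeg K n ((n * D) ^ j) (h ^ j) := by
  induction j with
  | zero => rw [pow_zero, pow_zero]; exact AutDeg.one
  | succ j ih =>
    rw [pow_succ', pow_succ']
    exact hh.mul ih

/-- Elements whose degrees grow exponentially are not conjugate to proper powers. -/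
theorem no_power_of_exp {c : L ≃ₐ[K] L} {ε : ℝ} (hε : 0 < ε)
    (hc : ∀ k D : ℕ, AutDeg K n D (c ^ k) → Real.exp (ε * k) ≤ D) (m : ℕ) (hm : 2 ≤ m)
    (g : L ≃ₐ[K] L) : g * c * g⁻¹ ≠ c ^ m := by
  intro hg
  obtain ⟨D1, hD1⟩ := exists_autDeg (K := K) (n := n) g
  obtain ⟨D2, hD2⟩ := exists_autDeg (K := K) (n := n) g⁻¹
  obtain ⟨D3, hD3⟩ := exists_autDeg (K := K) (n := n) c
  have hiter : ∀ j : ℕ, g ^ j * c * (g ^ j)⁻¹ = c ^ m ^ j := by
    intro j
    induction j with
    | zero => simp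
    | succ j ih =>
      have e1 : g ^ (j + 1) * c * (g ^ (j + 1))⁻¹ = g * (g ^ j * c * (g ^ j)⁻¹) * g⁻¹ := by
        rw [pow_succ' g j, mul_inv_rev]
        group
      rw [e1, ih, ← conj_pow, hg, ← pow_mul, pow_succ']
  have hdeg : ∀ j : ℕ, AutDeg K n (n * (n * (n * D1) ^ j * D3) * (n * D2) ^ j) (c ^ m ^ j) := by
    intro j
    rw [← hiter j, ← inv_pow]
    exact ((hD1.pow j).mul hD3).mul (hD2.pow j)
  -- growth
  let A : ℝ := (n * n * D3 : ℕ)
  let B : ℝ := ((n * D1) * (n * D2) : ℕ)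
  have hle : ∀ j : ℕ, Real.exp (ε * (m : ℝ) ^ j) ≤ A * B ^ j := by
    intro j
    have h1 := hc (m ^ j) _ (hdeg j)
    push_cast at h1
    calc Real.exp (ε * (m : ℝ) ^ j) ≤ _ := h1
      _ = A * B ^ j := by
        show _ = ((n * n * D3 : ℕ) : ℝ) * (((n * D1) * (n * D2) : ℕ) : ℝ) ^ j
        push_cast
        rw [mul_pow ((n : ℝ) * D1)]
        ring
  -- contradiction with `m ≥ 2`
  have hpos : ∀ j : ℕ, 0 < A * B ^ j := fun j => lt_of_lt_of_le (Real.exp_pos _) (hle j)
  have hA : 0 < A := by simpa using hpos 0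
  have hlog : ∀ j : ℕ, ε * (m : ℝ) ^ j ≤ Real.log A + j * Real.log B := by
    intro j
    have hBj : 0 < B ^ j := by
      have h1 := hpos j
      exact (pos_iff_pos_of_mul_pos h1).1 hA
    have h2 := Real.log_le_log (Real.exp_pos _) (hle j)
    rwa [Real.log_exp, Real.log_mul hA.ne' hBj.ne', Real.log_pow] at h2
  have hm2 : ∀ j : ℕ, (2 : ℝ) ^ j ≤ (m : ℝ) ^ j := fun j =>
    pow_le_pow_left₀ (by norm_num) (by exact_mod_cast hm) j
  have htend : Filter.Tendsto (fun j : ℕ => (j : ℝ) / (2 : ℝ) ^ j) Filter.atTop (nhds 0) := by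
    have h1 := tendsto_pow_const_div_const_pow_of_one_lt 1 (r := (2 : ℝ)) (by norm_num)
    simpa using h1
  have htend2 : Filter.Tendsto (fun j : ℕ => |Real.log A| * (1 / (2 : ℝ) ^ j) +
      |Real.log B| * ((j : ℝ) / (2 : ℝ) ^ j)) Filter.atTop (nhds 0) := by
    have h2 : Filter.Tendsto (fun j : ℕ => 1 / (2 : ℝ) ^ j) Filter.atTop (nhds 0) := by
      have h3 := tendsto_pow_atTop_nhds_zero_of_lt_one (r := (1 / 2 : ℝ)) (by norm_num) (by norm_num)
      refine h3.congr fun j => ?_
      rw [one_div_pow]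
    have h4 := (h2.const_mul |Real.log A|).add (htend.const_mul |Real.log B|)
    simpa using h4
  obtain ⟨j, hj⟩ := (htend2.eventually (gt_mem_nhds hε)).exists
  have h5 : ε * (2 : ℝ) ^ j ≤ |Real.log A| + j * |Real.log B| := by
    calc ε * (2 : ℝ) ^ j ≤ ε * (m : ℝ) ^ j := mul_le_mul_of_nonneg_left (hm2 j) hε.le
      _ ≤ Real.log A + j * Real.log B := hlog j
      _ ≤ |Real.log A| + j * |Real.log B| := add_le_add (le_abs_self _)
        (mul_le_mul_of_nonneg_left (le_abs_self _) (Nat.cast_nonneg j))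
  have h2j : (0 : ℝ) < 2 ^ j := by positivity
  have h6 : |Real.log A| * (1 / (2 : ℝ) ^ j) + |Real.log B| * ((j : ℝ) / (2 : ℝ) ^ j) =
      (|Real.log A| + j * |Real.log B|) / 2 ^ j := by
    field_simp
  rw [h6, div_lt_iff₀ h2j] at hj
  linarith

end

end Pool.Agent.W2helper35.CR
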