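import Pool.Agent.W2helper35.CR.Val

set_option autoImplicit false
set_option linter.unusedSectionVars false

/-!
Reduction of finitely generated groups of birational transformations.
-/

namespace Pool.Agent.W2helper35.CR

open MvPolynomial

universe u v

section

variable {K : Type u} [Field K] {O : ValuationSubring K} {n : ℕ} {E : Type u} [Field E]
  {e : E →+* IsLocalRing.ResidueField O}
  {F : Type u} [Field F] [Algebra (MvPolynomial (Fin n) (IsLocalRing.ResidueField O)) F]
  [IsFractionRing (MvPolynomial (Fin n) (IsLocalRing.ResidueField O)) F]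

lemma lift_poly (q : MvPolynomial (Fin n) K)
    (hq : ∀ s ∈ q.coeffs, ∃ hs : s ∈ O, (s ≠ 0 → IsLocalRing.residue O ⟨s, hs⟩ ≠ 0) ∧
        ∃ t : E, e t = IsLocalRing.residue O ⟨s, hs⟩) :
    ∃ q' : MvPolynomial (Fin n) O, MvPolynomial.map (algebraMap O K) q' = q ∧
      (q ≠ 0 → rd O (F := F) q' ≠ 0) ∧ InE e n (rd O (F := F) q') := by
  have h1 : q ∈ Set.range (MvPolynomial.map (σ := Fin n) (algebraMap O K)) := by
    rw [MvPolynomial.mem_range_map_iff_coeffs_subset]
    intro s hs
    obtain ⟨hs', -⟩ := hq s (Finset.mem_coe.1 hs)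
    exact ⟨⟨s, hs'⟩, rfl⟩
  obtain ⟨q', rfl⟩ := h1
  have hcoeff : ∀ t, MvPolynomial.coeff t (MvPolynomial.map (algebraMap O K) q') =
      ((MvPolynomial.coeff t q' : O) : K) := fun t => coeff_map _ _ _
  have hin : ∀ t, MvPolynomial.coeff t q' ≠ 0 →
      ((MvPolynomial.coeff t q' : O) : K) ∈ (MvPolynomial.map (algebraMap O K) q').coeffs := by
    intro t ht
    rw [← hcoeff]
    apply MvPolynomial.coeff_mem_coeffs
    rw [hcoeff]
    exact fun h => ht (Subtype.ext h)
  refine ⟨q', rfl, ?_, ?_⟩
  · intro h0 h1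
    have h2 : MvPolynomial.map (IsLocalRing.residue O) q' = 0 :=
      IsFractionRing.injective _ F (h1.trans (map_zero _).symm)
    have h3 : q' ≠ 0 := by
      rintro rfl
      exact h0 (map_zero _)
    obtain ⟨t, ht⟩ := MvPolynomial.exists_coeff_ne_zero h3
    obtain ⟨hs, h4, -⟩ := hq _ (hin t ht)
    apply h4 (fun h => ht (Subtype.ext h))
    have h5 := congrArg (MvPolynomial.coeff t) h2
    rw [coeff_map, coeff_zero] at h5
    exact h5
  · have h2 : MvPolynomial.map (IsLocalRing.residue O) q' ∈
        Set.range (MvPolynomial.map (σ := Fin n) e) := by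
      rw [MvPolynomial.mem_range_map_iff_coeffs_subset]
      intro s hs
      rw [Finset.mem_coe, MvPolynomial.mem_coeffs_iff] at hs
      obtain ⟨t, ht, rfl⟩ := hs
      have h3 : MvPolynomial.coeff t q' ≠ 0 := by
        intro h
        rw [MvPolynomial.mem_support_iff, coeff_map, h, map_zero] at ht
        exact ht rfl
      obtain ⟨hs, -, z, hz⟩ := hq _ (hin t h3)
      refine ⟨z, ?_⟩
      rw [hz, coeff_map]
    obtain ⟨q'', hq''⟩ := h2
    have h3 : rd O (F := F) q' = algebraMap _ F (MvPolynomial.map e q'') := by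
      rw [hq'']
      rfl
    rw [h3]
    exact InE.of_map q''

end

section

variable {K : Type u} [Field K] {n : ℕ}
  {L : Type u} [Field L] [Algebra (MvPolynomial (Fin n) K) L]
  [IsFractionRing (MvPolynomial (Fin n) K) L]
  [Algebra K L] [IsScalarTower K (MvPolynomial (Fin n) K) L]

/-- reduction of a finitely generated group -/
theorem exists_reduction {P : ℕ → Prop} (hval : ValFor K P) (H : Subgroup (L ≃ₐ[K] L))
    (hH : H.FG) :
    ∃ p : ℕ, p.Prime ∧ P p ∧ ∃ (O : ValuationSubring K) (E : Type u) (_ : Field E) (_ : Finite E)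
      (e : E →+* IsLocalRing.ResidueField O), IsLocalRing.residue O (p : O) = 0 ∧
      ∀ h ∈ H, ∃ φ : FractionRing (MvPolynomial (Fin n) (IsLocalRing.ResidueField O))
        →ₐ[IsLocalRing.ResidueField O]
          FractionRing (MvPolynomial (Fin n) (IsLocalRing.ResidueField O)),
        Red O (n := n) h φ ∧ ∀ g, InE e n g → InE e n (φ g) := by
  classical
  obtain ⟨T, hT⟩ := hH
  let T' : Finset (L ≃ₐ[K] L) := T ∪ T.image (fun h => h⁻¹)
  have hT' : ∀ h ∈ T', h⁻¹ ∈ T' := by
    intro h hh
    rcases Finset.mem_union.1 hh with h1 | h1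
    · exact Finset.mem_union_right _ (Finset.mem_image_of_mem _ h1)
    · obtain ⟨h', h2, rfl⟩ := Finset.mem_image.1 h1
      rw [inv_inv]
      exact Finset.mem_union_left _ h2
  let x : Fin n → L := fun i => algebraMap (MvPolynomial (Fin n) K) L (X i)
  have hex1 : ∀ (h : L ≃ₐ[K] L) (i : Fin n), ∃ U V : MvPolynomial (Fin n) K, V ≠ 0 ∧
      h (x i) * algebraMap _ L V = algebraMap _ L U := by
    intro h i
    obtain ⟨a, b, hb, hab⟩ := IsFractionRing.div_surjective (A := MvPolynomial (Fin n) K) (h (x i))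
    have hb0 : algebraMap (MvPolynomial (Fin n) K) L b ≠ 0 := by
      rw [Ne, IsFractionRing.to_map_eq_zero_iff]
      exact nonZeroDivisors.ne_zero hb
    exact ⟨a, b, nonZeroDivisors.ne_zero hb, by rw [← hab, div_mul_cancel₀ _ hb0]⟩
  choose U V hV hUV using hex1
  have hex2 : ∀ (h : L ≃ₐ[K] L) (i : Fin n), ∃ A B : MvPolynomial (Fin n) K, A ≠ 0 ∧ B ≠ 0 ∧
      h (algebraMap _ L (V h⁻¹ i)) * algebraMap _ L B = algebraMap _ L A := by
    intro h i
    obtain ⟨a, b, hb, hab⟩ := IsFractionRing.div_surjective (A := MvPolynomial (Fin n) K)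
      (h (algebraMap _ L (V h⁻¹ i)))
    have hb0 : algebraMap (MvPolynomial (Fin n) K) L b ≠ 0 := by
      rw [Ne, IsFractionRing.to_map_eq_zero_iff]
      exact nonZeroDivisors.ne_zero hb
    refine ⟨a, b, ?_, nonZeroDivisors.ne_zero hb, by rw [← hab, div_mul_cancel₀ _ hb0]⟩
    rintro rfl
    rw [map_zero, zero_div] at hab
    have h1 := hab.symm
    rw [map_eq_zero, IsFractionRing.to_map_eq_zero_iff] at h1
    exact hV _ _ h1
  choose A B hA hB hAB using hex2
  let S : Finset K := T'.biUnion fun h => Finset.univ.biUnion fun i =>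
    ((U h i).coeffs ∪ (V h i).coeffs) ∪ ((A h i).coeffs ∪ (B h i).coeffs)
  have hS : ∀ h ∈ T', ∀ i, ∀ s ∈ ((U h i).coeffs ∪ (V h i).coeffs) ∪
      ((A h i).coeffs ∪ (B h i).coeffs), s ∈ S := fun h hh i s hs =>
    Finset.mem_biUnion.2 ⟨h, hh, Finset.mem_biUnion.2 ⟨i, Finset.mem_univ _, hs⟩⟩
  obtain ⟨p, hp, hmp, O, E, hE, hEf, e, hpO, hSO⟩ := hval S
  refine ⟨p, hp, hmp, O, E, hE, hEf, e, hpO, ?_⟩
  let F := FractionRing (MvPolynomial (Fin n) (IsLocalRing.ResidueField O))
  have hxr : ∀ i, Rel O (n := n) (x i)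
      (algebraMap (MvPolynomial (Fin n) (IsLocalRing.ResidueField O)) F (X i)) := fun i => by
    have := rel_ev O L F (X i : MvPolynomial (Fin n) O)
    rwa [ev_X, rd_X] at this
  -- the generators
  have hgen : ∀ h ∈ T', ∃ φ : F →ₐ[IsLocalRing.ResidueField O] F,
      Red O (n := n) h φ ∧ ∀ g, InE e n g → InE e n (φ g) := by
    intro h hh
    have hU := fun i => lift_poly (F := F) (U h i) (fun s hs => hSO s (hS h hh i s
      (Finset.mem_union_left _ (Finset.mem_union_left _ hs))))
    have hV2 := fun i => lift_poly (F := F) (V h i) (fun s hs => hSO s (hS h hh i s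
      (Finset.mem_union_left _ (Finset.mem_union_right _ hs))))
    have hU1 := fun i => lift_poly (F := F) (U h⁻¹ i) (fun s hs => hSO s (hS h⁻¹ (hT' h hh) i s
      (Finset.mem_union_left _ (Finset.mem_union_left _ hs))))
    have hV1 := fun i => lift_poly (F := F) (V h⁻¹ i) (fun s hs => hSO s (hS h⁻¹ (hT' h hh) i s
      (Finset.mem_union_left _ (Finset.mem_union_right _ hs))))
    have hA1 := fun i => lift_poly (F := F) (A h i) (fun s hs => hSO s (hS h hh i s
      (Finset.mem_union_right _ (Finset.mem_union_left _ hs))))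
    have hB1 := fun i => lift_poly (F := F) (B h i) (fun s hs => hSO s (hS h hh i s
      (Finset.mem_union_right _ (Finset.mem_union_right _ hs))))
    choose U' hU' hUne hUE using hU
    choose V' hV' hVne hVE using hV2
    choose U₁ hU₁ _ _ using hU1
    choose V₁ hV₁ hV₁ne _ using hV1
    choose A' hA' hAne _ using hA1
    choose B' hB' hBne _ using hB1
    have hev : ∀ q : MvPolynomial (Fin n) O,
        algebraMap (MvPolynomial (Fin n) K) L (MvPolynomial.map (algebraMap O K) q) =
          ev O q := fun q => rfl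
    let y : Fin n → F := fun i => rd O (U' i) / rd O (V' i)
    have hVr : ∀ i, rd O (F := F) (V' i) ≠ 0 := fun i => hVne i (hV h i)
    have hy : ∀ i, Rel O (n := n) (h (x i)) (y i) := by
      intro i
      have h1 := hUV h i
      rw [← hV' i, ← hU' i, hev, hev] at h1
      refine ⟨U' i, V' i, hVr i, h1, ?_⟩
      exact div_mul_cancel₀ _ (hVr i)
    have hψ : ∀ q : MvPolynomial (Fin n) O, Rel O (n := n) (h (ev O q))
        (aeval y (MvPolynomial.map (IsLocalRing.residue O) q)) := by
      intro q
      refine rel_ind (O := O) ((h : L →+* L).comp (ev O))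
        ((aeval y : MvPolynomial (Fin n) (IsLocalRing.ResidueField O) →ₐ[_] F).toRingHom.comp
          (MvPolynomial.map (IsLocalRing.residue O))) ?_ ?_ q
      · intro t
        show Rel O (n := n) (h (ev O (C t))) (aeval y (MvPolynomial.map (IsLocalRing.residue O) (C t)))
        rw [ev_C, map_C, aeval_C, h.commutes]
        exact rel_const t
      · intro i
        show Rel O (n := n) (h (ev O (X i))) (aeval y (MvPolynomial.map (IsLocalRing.residue O) (X i)))
        rw [ev_X, map_X, aeval_X]
        exact hy i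
    have hinj : Function.Injective
        (aeval y : MvPolynomial (Fin n) (IsLocalRing.ResidueField O) →ₐ[_] F) := by
      apply injective_of_gen
      intro i
      refine ⟨MvPolynomial.map (IsLocalRing.residue O) (U₁ i),
        MvPolynomial.map (IsLocalRing.residue O) (V₁ i), ?_, ?_⟩
      · have h1 := hAB h i
        rw [← hV₁ i, ← hA' i, ← hB' i, hev, hev, hev] at h1
        have hBr : rd O (F := F) (B' i) ≠ 0 := hBne i (hB h i)
        have h2 : Rel O (n := n) (h (ev O (V₁ i))) (rd O (A' i) / rd O (B' i) : F) :=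
          ⟨A' i, B' i, hBr, h1, div_mul_cancel₀ _ hBr⟩
        rw [(hψ (V₁ i)).unique h2]
        exact div_ne_zero (hAne i (hA h i)) hBr
      · have hne : (aeval y (MvPolynomial.map (IsLocalRing.residue O) (V₁ i)) : F) ≠ 0 := by
          have h1 := hAB h i
          rw [← hV₁ i, ← hA' i, ← hB' i, hev, hev, hev] at h1
          have hBr : rd O (F := F) (B' i) ≠ 0 := hBne i (hB h i)
          have h2 : Rel O (n := n) (h (ev O (V₁ i))) (rd O (A' i) / rd O (B' i) : F) :=
            ⟨A' i, B' i, hBr, h1, div_mul_cancel₀ _ hBr⟩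
          rw [(hψ (V₁ i)).unique h2]
          exact div_ne_zero (hAne i (hA h i)) hBr
        have h3 := (hψ (U₁ i)).div (hψ (V₁ i)) hne
        have h4 : h (ev O (U₁ i)) / h (ev O (V₁ i)) = x i := by
          have h5 := hUV h⁻¹ i
          rw [← hV₁ i, ← hU₁ i, hev, hev] at h5
          have h6 := congrArg h h5
          rw [map_mul] at h6
          have h7 : h (h⁻¹ (x i)) = x i := by
            have : (h * h⁻¹) (x i) = x i := by rw [mul_inv_cancel]; rfl
            exact this
          rw [h7] at h6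
          rw [← h6, mul_div_assoc, div_self, mul_one]
          exact (hψ (V₁ i)).ne_zero hne
        rw [h4] at h3
        exact (hxr i).unique h3
    obtain ⟨φ, hφ, hred⟩ := red_of h y hy hinj
    refine ⟨φ, hred, ?_⟩
    rintro g ⟨a, b, hb, hab⟩
    have hpoly : ∀ q : MvPolynomial (Fin n) E,
        InE e n (φ (algebraMap _ F (MvPolynomial.map e q))) := by
      intro q
      induction q using MvPolynomial.induction_on with
      | C t =>
        have h1 : algebraMap (MvPolynomial (Fin n) (IsLocalRing.ResidueField O)) F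
            (MvPolynomial.map e (C t)) = algebraMap (IsLocalRing.ResidueField O) F (e t) := by
          rw [map_C]
          exact (IsScalarTower.algebraMap_apply _
            (MvPolynomial (Fin n) (IsLocalRing.ResidueField O)) F (e t)).symm
        have h2 : φ (algebraMap (MvPolynomial (Fin n) (IsLocalRing.ResidueField O)) F
            (MvPolynomial.map e (C t))) = algebraMap (MvPolynomial (Fin n)
              (IsLocalRing.ResidueField O)) F (MvPolynomial.map e (C t)) := by
          rw [h1, φ.commutes]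
        rw [h2]
        exact InE.of_map _
      | add p q hp hq => rw [map_add, map_add, map_add]; exact hp.add hq
      | mul_X p i hp =>
        rw [map_mul, map_mul, map_mul, map_X, hφ i]
        exact hp.mul ((hUE i).div (hVE i) (hVr i))
    have hne := map_ne (F := F) e hb
    have h1 : g = algebraMap _ F (MvPolynomial.map e a) / algebraMap _ F (MvPolynomial.map e b) := by
      rw [eq_div_iff hne, hab]
    rw [h1, map_div₀]
    exact (hpoly a).div (hpoly b) (by rw [Ne, map_eq_zero]; exact hne)
  -- the whole group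
  intro h hh
  rw [← hT] at hh
  have key : (∃ φ : F →ₐ[IsLocalRing.ResidueField O] F,
      Red O (n := n) h φ ∧ ∀ g, InE e n g → InE e n (φ g)) ∧
      (∃ φ : F →ₐ[IsLocalRing.ResidueField O] F,
      Red O (n := n) h⁻¹ φ ∧ ∀ g, InE e n g → InE e n (φ g)) := by
    induction hh using Subgroup.closure_induction with
    | mem h hh =>
      have h1 : h ∈ T' := Finset.mem_union_left _ (Finset.mem_coe.1 hh)
      exact ⟨hgen h h1, hgen h⁻¹ (hT' h h1)⟩
    | one => exact ⟨⟨_, Red.one, fun g hg => hg⟩, by rw [inv_one]; exact ⟨_, Red.one, fun g hg => hg⟩⟩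
    | mul a b _ _ ha hb =>
      obtain ⟨⟨φ, h1, h2⟩, ⟨ψ, h3, h4⟩⟩ := ha
      obtain ⟨⟨φ', h1', h2'⟩, ⟨ψ', h3', h4'⟩⟩ := hb
      refine ⟨⟨_, h1.mul h1', fun g hg => h2 _ (h2' g hg)⟩, ?_⟩
      rw [mul_inv_rev]
      exact ⟨_, h3'.mul h3, fun g hg => h4' _ (h4 g hg)⟩
    | inv a _ ha => rw [inv_inv]; exact ⟨ha.2, ha.1⟩
  exact key.1

end

end Pool.Agent.W2helper35.CR
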