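import Pool.Agent.W2helper35.CR.Pgl

set_option autoImplicit false
set_option linter.unusedSectionVars false

/-!
Groups of birational transformations which preserve a flag of coordinate fields, in characteristic
`p`.
-/

namespace Pool.Agent.W2helper35.CR

open MvPolynomial IntermediateField

universe u v

section

variable {E : Type u} [Field E] {n : ℕ} {F : Type u} [Field F]
  [Algebra (MvPolynomial (Fin n) E) F] [Algebra E F] [IsScalarTower E (MvPolynomial (Fin n) E) F]
  [IsFractionRing (MvPolynomial (Fin n) E) F]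

/-- the coordinates -/
noncomputable def xx (E : Type u) [Field E] {n : ℕ} (F : Type u) [Field F]
    [Algebra (MvPolynomial (Fin n) E) F] (j : Fin n) : F :=
  algebraMap (MvPolynomial (Fin n) E) F (X j)

/-- the field generated by the first `i` coordinates -/
noncomputable def Fi (E : Type u) [Field E] {n : ℕ} (F : Type u) [Field F]
    [Algebra (MvPolynomial (Fin n) E) F] [Algebra E F] (i : ℕ) : IntermediateField E F :=
  IntermediateField.adjoin E (xx E F '' {j : Fin n | j.val < i})

lemma xx_mem {i : ℕ} {j : Fin n} (h : j.val < i) : xx E F j ∈ Fi E F (n := n) i :=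
  IntermediateField.subset_adjoin _ _ ⟨j, h, rfl⟩

lemma xx_ind : AlgebraicIndependent E (xx E F : Fin n → F) := by
  have h1 := IsTranscendenceBasis.mvPolynomial (Fin n) E
  have h2 : Algebra.IsAlgebraic (MvPolynomial (Fin n) E) F :=
    IsLocalization.isAlgebraic F (nonZeroDivisors (MvPolynomial (Fin n) E))
  exact (h1.algebraMap_comp (A := F)).1

lemma xx_trans (j : Fin n) : Transcendental (Fi E F (n := n) j.val) (xx E F j) := by
  unfold Fi
  rw [IntermediateField.transcendental_adjoin_iff]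
  exact xx_ind.transcendental_adjoin (s := {k : Fin n | k.val < j.val}) (i := j)
    (fun h => absurd (show j.val < j.val from h) (lt_irrefl _))

lemma Fi_succ (j : Fin n) {y : F} (hy : y ∈ Fi E F (n := n) (j.val + 1)) :
    y ∈ IntermediateField.adjoin (Fi E F (n := n) j.val) {xx E F j} := by
  have h1 : Fi E F (n := n) (j.val + 1) ≤
      (IntermediateField.adjoin (Fi E F (n := n) j.val) {xx E F j}).restrictScalars E := by
    unfold Fi
    rw [IntermediateField.adjoin_le_iff]
    rintro _ ⟨k, hk, rfl⟩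
    have hk' : k.val < j.val + 1 := hk
    rcases Nat.lt_succ_iff_lt_or_eq.1 hk' with h | h
    · have h2 : xx E F k ∈ Fi E F (n := n) j.val := xx_mem h
      exact (IntermediateField.adjoin (Fi E F (n := n) j.val) {xx E F j}).algebraMap_mem ⟨_, h2⟩
    · have h2 : k = j := Fin.ext h
      rw [h2]
      exact IntermediateField.subset_adjoin _ _ rfl
  exact h1 hy

lemma td_pow (a : MvPolynomial (Fin n) E) (ha : a ≠ 0) (q : ℕ) :
    (a ^ q).totalDegree = q * a.totalDegree := by
  induction q with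
  | zero => simp
  | succ q ih =>
    rw [pow_succ, MvPolynomial.totalDegree_mul_of_isDomain (pow_ne_zero _ ha) ha, ih]
    ring

/-- infinitely `p`-divisible rational functions are constant -/
lemma const_of_div {E : Type u} [Field E] (n : ℕ) {F : Type u} [Field F]
    [Algebra (MvPolynomial (Fin n) E) F] [Algebra E F] [IsScalarTower E (MvPolynomial (Fin n) E) F]
    [IsFractionRing (MvPolynomial (Fin n) E) F]
    {p : ℕ} (hp : 1 < p) (t : F) (h : ∀ r : ℕ, ∃ s : F, s ^ p ^ r = t) :
    ∃ a : E, algebraMap E F a = t := by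
  by_cases ht : t = 0
  · exact ⟨0, by rw [map_zero, ht]⟩
  let A := MvPolynomial (Fin n) E
  let r := (IsFractionRing.num A t).totalDegree + ((IsFractionRing.den A t : A)).totalDegree
  obtain ⟨s, hs⟩ := h r
  have hq : r < p ^ r := Nat.lt_pow_self hp
  have hs0 : s ≠ 0 := by
    rintro rfl
    rw [zero_pow (by omega)] at hs
    exact ht hs.symm
  have hden : ∀ y : F, algebraMap A F (IsFractionRing.den A y : A) ≠ 0 := by
    intro y
    rw [Ne, IsFractionRing.to_map_eq_zero_iff]
    exact nonZeroDivisors.ne_zero (IsFractionRing.den A y).2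
  have hdef : ∀ y : F, y * algebraMap A F (IsFractionRing.den A y : A) =
      algebraMap A F (IsFractionRing.num A y) := by
    intro y
    have h1 := IsFractionRing.mk'_num_den' A y
    nth_rewrite 1 [← h1]
    exact div_mul_cancel₀ _ (hden y)
  have hnum0 : ∀ y : F, y ≠ 0 → IsFractionRing.num A y ≠ 0 := by
    intro y hy h0
    have h1 := hdef y
    rw [h0, map_zero] at h1
    exact (mul_ne_zero hy (hden y)) h1
  have key : IsFractionRing.num A s ^ p ^ r * (IsFractionRing.den A t : A) =
      IsFractionRing.num A t * (IsFractionRing.den A s : A) ^ p ^ r := by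
    apply IsFractionRing.injective A F
    rw [map_mul, map_mul, map_pow, map_pow, ← hdef s, ← hdef t, mul_pow, hs]
    ring
  have hcop : IsRelPrime (IsFractionRing.num A s) (IsFractionRing.den A s : A) :=
    IsFractionRing.num_den_reduced A s
  have hcop' : IsRelPrime (IsFractionRing.num A s ^ p ^ r)
      ((IsFractionRing.den A s : A) ^ p ^ r) := hcop.pow
  have hd1 : IsFractionRing.num A s ^ p ^ r ∣ IsFractionRing.num A t :=
    hcop'.dvd_of_dvd_mul_right ⟨_, key.symm⟩
  have hd2 : (IsFractionRing.den A s : A) ^ p ^ r ∣ (IsFractionRing.den A t : A) :=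
    hcop'.symm.dvd_of_dvd_mul_left (Dvd.intro_left _ key.symm)
  have hn0 : IsFractionRing.num A s ≠ 0 := hnum0 s hs0
  have hden0 : (IsFractionRing.den A s : A) ≠ 0 := nonZeroDivisors.ne_zero (IsFractionRing.den A s).2
  have hdeg1 : (IsFractionRing.num A s).totalDegree = 0 := by
    have h1 := MvPolynomial.totalDegree_le_of_dvd_of_isDomain hd1 (hnum0 t ht)
    rw [td_pow _ hn0] at h1
    by_contra hne
    have h2 : p ^ r * 1 ≤ p ^ r * (IsFractionRing.num A s).totalDegree :=
      Nat.mul_le_mul_left _ (Nat.one_le_iff_ne_zero.2 hne)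
    have h3 : (IsFractionRing.num A t).totalDegree ≤ r := Nat.le_add_right _ _
    omega
  have hdeg2 : ((IsFractionRing.den A s : A)).totalDegree = 0 := by
    have h1 := MvPolynomial.totalDegree_le_of_dvd_of_isDomain hd2
      (nonZeroDivisors.ne_zero (IsFractionRing.den A t).2)
    rw [td_pow _ hden0] at h1
    by_contra hne
    have h2 : p ^ r * 1 ≤ p ^ r * ((IsFractionRing.den A s : A)).totalDegree :=
      Nat.mul_le_mul_left _ (Nat.one_le_iff_ne_zero.2 hne)
    have h3 : ((IsFractionRing.den A t : A)).totalDegree ≤ r := Nat.le_add_left _ _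
    omega
  rw [MvPolynomial.totalDegree_eq_zero_iff_eq_C] at hdeg1 hdeg2
  have hC : ∀ a : E, algebraMap A F (C a) = algebraMap E F a := fun a =>
    (IsScalarTower.algebraMap_apply E A F a).symm
  have h5 := hdef s
  rw [hdeg1, hdeg2, hC, hC] at h5
  have h6 : algebraMap E F (coeff 0 (IsFractionRing.den A s : A)) ≠ 0 := by
    have h7 := hden s
    rw [hdeg2, hC] at h7
    exact h7
  refine ⟨(coeff 0 (IsFractionRing.num A s) / coeff 0 (IsFractionRing.den A s : A)) ^ p ^ r, ?_⟩
  rw [map_pow, map_div₀, ← h5, mul_div_assoc, div_self h6, mul_one, hs]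

lemma perf_Fi [Finite E] {p : ℕ} [hp : Fact p.Prime] [CharP E p] (i : ℕ) :
    Perf (Fi E F (n := n) i) p := by
  intro t ht
  obtain ⟨a, ha⟩ := const_of_div (E := E) n hp.out.one_lt (t : F) (fun r => by
    obtain ⟨s, hs⟩ := ht r
    exact ⟨s, by rw [← hs]; rfl⟩)
  have hfin : Fintype E := Fintype.ofFinite E
  obtain ⟨r, -, hr⟩ := FiniteField.card E p
  refine ⟨r, r.2, ?_⟩
  apply Subtype.ext
  show (t : F) ^ p ^ (r : ℕ) = t
  rw [← ha, ← map_pow, ← hr, FiniteField.pow_card]

lemma pow_iter {G : Type u} [Group G] {g b : G} {p J : ℕ} (h : g * b ^ p ^ J * g⁻¹ = b) (s : ℕ) :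
    g ^ s * b ^ p ^ (J * s) * (g ^ s)⁻¹ = b := by
  induction s with
  | zero => simp
  | succ s ih =>
    have e1 : b ^ p ^ (J * (s + 1)) = (b ^ p ^ (J * s)) ^ p ^ J := by
      rw [← pow_mul, ← pow_add, Nat.mul_succ]
    have e2 : g ^ (s + 1) * (b ^ p ^ (J * s)) ^ p ^ J * (g ^ (s + 1))⁻¹ =
        g * (g ^ s * b ^ p ^ (J * s) * (g ^ s)⁻¹) ^ p ^ J * g⁻¹ := by
      rw [conj_pow, pow_succ' g s, mul_inv_rev]
      group
    rw [e1, e2, ih, h]

/-- the tower argument -/
theorem tower [Finite E] {p : ℕ} [hp : Fact p.Prime] [CharP E p] {m J : ℕ} (hJ : 1 ≤ J)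
    (c g : F ≃ₐ[E] F) (hconj : g * c ^ p ^ J * g⁻¹ = c)
    (hpres : ∀ i, m ≤ i → i ≤ n → ∀ f ∈ Fi E F (n := n) i, c f ∈ Fi E F (n := n) i ∧
      c⁻¹ f ∈ Fi E F (n := n) i ∧ g f ∈ Fi E F (n := n) i ∧ g⁻¹ f ∈ Fi E F (n := n) i)
    (hm : ∃ N : ℕ, 1 ≤ N ∧ ∀ f ∈ Fi E F (n := n) m, (c ^ N) f = f) (k : ℕ) (hk : m + k ≤ n) :
    ∃ N : ℕ, 1 ≤ N ∧ ∀ f ∈ Fi E F (n := n) (m + k), (c ^ N) f = f := by
  induction k with
  | zero => exact hm
  | succ k ih =>
    obtain ⟨N, hN, hfix⟩ := ih (by omega)
    let j : Fin n := ⟨m + k, by omega⟩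
    let Λ := Fi E F (n := n) (m + k)
    -- subgroup of elements preserving a field
    let P : ℕ → Subgroup (F ≃ₐ[E] F) := fun i =>
      { carrier := {σ | ∀ f ∈ Fi E F (n := n) i, σ f ∈ Fi E F (n := n) i ∧
          σ⁻¹ f ∈ Fi E F (n := n) i}
        mul_mem' := by
          intro σ τ hσ hτ f hf
          refine ⟨(hσ _ (hτ f hf).1).1, ?_⟩
          rw [mul_inv_rev]
          exact (hτ _ (hσ f hf).2).2
        one_mem' := fun f hf => ⟨hf, by rw [inv_one]; exact hf⟩
        inv_mem' := by
          intro σ hσ f hf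
          refine ⟨(hσ f hf).2, ?_⟩
          rw [inv_inv]
          exact (hσ f hf).1 }
    have hcP : ∀ i, m ≤ i → i ≤ n → c ∈ P i := fun i h1 h2 f hf =>
      ⟨(hpres i h1 h2 f hf).1, (hpres i h1 h2 f hf).2.1⟩
    have hgP : ∀ i, m ≤ i → i ≤ n → g ∈ P i := fun i h1 h2 f hf =>
      ⟨(hpres i h1 h2 f hf).2.2.1, (hpres i h1 h2 f hf).2.2.2⟩
    have hcΛ : c ^ N ∈ Λ.fixingSubgroup := by
      rw [IntermediateField.mem_fixingSubgroup_iff]
      exact hfix
    have hconjN : g * (c ^ N) ^ p ^ J * g⁻¹ = c ^ N := by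
      rw [← pow_mul, mul_comm N, pow_mul, ← conj_pow, hconj]
    have hiter : ∀ s : ℕ, g ^ s * (c ^ N) ^ p ^ (J * s) * (g ^ s)⁻¹ = c ^ N := by
      exact fun s => pow_iter hconjN s
    have hdiv : ∀ r : ℕ, ∃ d : F ≃ₐ[E] F, d ∈ Λ.fixingSubgroup ∧ d ^ p ^ r = c ^ N ∧
        d ∈ P (m + k + 1) := by
      intro r
      have hdr : g ^ r * c ^ N * (g ^ r)⁻¹ ∈ Λ.fixingSubgroup := by
        rw [IntermediateField.mem_fixingSubgroup_iff]
        intro f hf
        have h1 : (g ^ r)⁻¹ f ∈ Λ :=
          ((P (m + k)).inv_mem ((P (m + k)).pow_mem (hgP (m + k) (by omega) (by omega)) r) f hf).1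
        show (g ^ r) ((c ^ N) ((g ^ r)⁻¹ f)) = f
        rw [hfix _ h1]
        have : (g ^ r * (g ^ r)⁻¹) f = f := by rw [mul_inv_cancel]; rfl
        exact this
      refine ⟨(g ^ r * c ^ N * (g ^ r)⁻¹) ^ p ^ (J * r - r), Subgroup.pow_mem _ hdr _, ?_, ?_⟩
      · rw [← pow_mul, ← pow_add]
        have e1 : J * r - r + r = J * r := Nat.sub_add_cancel (Nat.le_mul_of_pos_left r (by omega))
        rw [e1, conj_pow, hiter]
      · have hgr := (P (m + k + 1)).pow_mem (hgP (m + k + 1) (by omega) (by omega)) r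
        exact (P (m + k + 1)).pow_mem ((P (m + k + 1)).mul_mem ((P (m + k + 1)).mul_mem hgr
          ((P (m + k + 1)).pow_mem (hcP (m + k + 1) (by omega) (by omega)) N))
          ((P (m + k + 1)).inv_mem hgr)) _
    -- transfer to automorphisms over `Λ`
    let T := IntermediateField.fixingSubgroupEquiv Λ
    have hTa : ∀ (σ : Λ.fixingSubgroup) (f : F), (T σ) f = (σ : F ≃ₐ[E] F) f := fun σ f => rfl
    have hchE : CharP Λ p := charP_of_injective_algebraMap (algebraMap E Λ).injective p
    have hxmem : xx E F j ∈ Fi E F (n := n) (m + k + 1) := xx_mem (Nat.lt_succ_self _)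
    obtain ⟨N', hN', hx'⟩ := finite_order_step (Λ := Λ) (F := F) (p := p) (perf_Fi (m + k))
      (x := xx E F j) (xx_trans j) (T ⟨c ^ N, hcΛ⟩) (by
        intro r
        obtain ⟨d, hd, hdp, hdP⟩ := hdiv r
        refine ⟨T ⟨d, hd⟩, ?_, ?_, ?_⟩
        · rw [← map_pow]
          congr 1
          exact Subtype.ext hdp
        · rw [hTa]
          exact Fi_succ j (hdP _ hxmem).1
        · rw [← map_inv, hTa]
          exact Fi_succ j (hdP _ hxmem).2)
    refine ⟨N * N', Nat.mul_pos hN hN', ?_⟩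
    rw [← map_pow, hTa] at hx'
    have hx2 : (c ^ (N * N')) (xx E F j) = xx E F j := by
      rw [pow_mul]
      exact hx'
    have hfix2 : ∀ f ∈ Λ, (c ^ (N * N')) f = f := by
      have h1 := Subgroup.pow_mem _ hcΛ N'
      rw [← pow_mul, IntermediateField.mem_fixingSubgroup_iff] at h1
      exact h1
    have hle : Fi E F (n := n) (m + k + 1) ≤
        IntermediateField.fixedField (Subgroup.zpowers (c ^ (N * N'))) := by
      unfold Fi
      rw [IntermediateField.adjoin_le_iff]
      rintro _ ⟨i, hi, rfl⟩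
      have hbase : (c ^ (N * N')) (xx E F i) = xx E F i := by
        have hi' : i.val < m + k + 1 := hi
        rcases Nat.lt_succ_iff_lt_or_eq.1 hi' with h | h
        · exact hfix2 _ (xx_mem h)
        · have h2 : i = j := Fin.ext h
          rw [h2]
          exact hx2
      rw [SetLike.mem_coe, IntermediateField.mem_fixedField_iff]
      intro σ hσ
      have h3 : Subgroup.zpowers (c ^ (N * N')) ≤ MulAction.stabilizer (F ≃ₐ[E] F) (xx E F i) := by
        rw [Subgroup.zpowers_le, MulAction.mem_stabilizer_iff]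
        exact hbase
      exact MulAction.mem_stabilizer_iff.1 (h3 hσ)
    intro f hf
    have h4 := hle hf
    rw [IntermediateField.mem_fixedField_iff] at h4
    exact h4 _ (Subgroup.mem_zpowers _)

end

end Pool.Agent.W2helper35.CR
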