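import Pool.Agent.W2helper35.CR.Bdd
import Pool.Agent.W2helper35.CR.Tow

set_option autoImplicit false
set_option linter.unusedSectionVars false

/-!
The reduction homomorphism, and elements which are not conjugate to almost all of their powers.
-/

namespace Pool.Agent.W2helper35.CR

open MvPolynomial IntermediateField

universe u v

/-- restriction of an automorphism to a subfield -/
lemma exists_restrict {E k A B : Type u} [Field E] [Field k] [Field A] [Field B] [Algebra E A]
    [Algebra k B] (e : E →+* k) (ι : A →+* B)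
    (hι : ∀ a : E, ι (algebraMap E A a) = algebraMap k B (e a)) (φ ψ : B →ₐ[k] B)
    (h1 : ∀ y, φ (ψ y) = y) (h2 : ∀ y, ψ (φ y) = y) (h3 : ∀ y : A, ∃ z : A, ι z = φ (ι y))
    (h4 : ∀ y : A, ∃ z : A, ι z = ψ (ι y)) : ∃ σ : A ≃ₐ[E] A, ∀ y, ι (σ y) = φ (ι y) := by
  choose f hf using h3
  choose g hg using h4
  have hinj := ι.injective
  refine ⟨{ toFun := f, invFun := g, left_inv := ?_, right_inv := ?_, map_mul' := ?_,
            map_add' := ?_, commutes' := ?_ }, hf⟩
  · intro y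
    apply hinj
    rw [hg, hf, h2]
  · intro y
    apply hinj
    rw [hf, hg, h1]
  · intro x y
    apply hinj
    rw [hf, map_mul, map_mul, map_mul, hf, hf]
  · intro x y
    apply hinj
    rw [hf, map_add, map_add, map_add, hf, hf]
  · intro a
    apply hinj
    rw [hf, hι, φ.commutes]

section

variable {k : Type u} [Field k] {E : Type u} [Field E] (e : E →+* k) (n : ℕ)
  (G : Type u) [Field G] [Algebra (MvPolynomial (Fin n) E) G]
  [IsFractionRing (MvPolynomial (Fin n) E) G]
  (F : Type u) [Field F] [Algebra (MvPolynomial (Fin n) k) F]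
  [IsFractionRing (MvPolynomial (Fin n) k) F]

/-- the embedding of the small function field -/
noncomputable def emb : G →+* F :=
  IsFractionRing.lift (A := MvPolynomial (Fin n) E)
    (g := (algebraMap (MvPolynomial (Fin n) k) F).comp (MvPolynomial.map e))
    ((IsFractionRing.injective (MvPolynomial (Fin n) k) F).comp
      (MvPolynomial.map_injective e e.injective))

lemma emb_alg (a : MvPolynomial (Fin n) E) :
    emb e n G F (algebraMap _ G a) = algebraMap _ F (MvPolynomial.map e a) := by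
  unfold emb
  rw [IsFractionRing.lift_algebraMap]
  rfl

lemma inE_iff (g : F) : InE e n g ↔ ∃ y : G, emb e n G F y = g := by
  constructor
  · rintro ⟨a, b, hb, h⟩
    refine ⟨algebraMap _ G a / algebraMap _ G b, ?_⟩
    rw [map_div₀, emb_alg, emb_alg, div_eq_iff (map_ne (F := F) e hb), h]
  · rintro ⟨y, rfl⟩
    obtain ⟨a, b, hb, rfl⟩ := IsFractionRing.div_surjective (A := MvPolynomial (Fin n) E) y
    refine ⟨a, b, nonZeroDivisors.ne_zero hb, ?_⟩
    rw [map_div₀, emb_alg, emb_alg, div_mul_cancel₀]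
    exact map_ne (F := F) e (nonZeroDivisors.ne_zero hb)

variable [Algebra E G] [IsScalarTower E (MvPolynomial (Fin n) E) G]
  [Algebra k F] [IsScalarTower k (MvPolynomial (Fin n) k) F]

lemma emb_const (a : E) : emb e n G F (algebraMap E G a) = algebraMap k F (e a) := by
  rw [IsScalarTower.algebraMap_apply E (MvPolynomial (Fin n) E) G, emb_alg,
    IsScalarTower.algebraMap_apply k (MvPolynomial (Fin n) k) F]
  congr 1
  exact map_C e a

lemma emb_xx (j : Fin n) : emb e n G F (xx E G j) = xx k F j := by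
  unfold xx
  rw [emb_alg, map_X]

end

section flags

variable {k : Type u} [Field k] {n : ℕ} {F : Type u} [Field F]
  [Algebra (MvPolynomial (Fin n) k) F] [Algebra k F] [IsScalarTower k (MvPolynomial (Fin n) k) F]
  [IsFractionRing (MvPolynomial (Fin n) k) F]

/-- exponents which involve only the first `i` coordinates -/
def fl (n i : ℕ) : Set (Fin n →₀ ℕ) := {s | ∀ j : Fin n, i ≤ j.val → s j = 0}

lemma fl_mul {i : ℕ} {a b : MvPolynomial (Fin n) k} (ha : ∀ s, coeff s a ≠ 0 → s ∈ fl n i)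
    (hb : ∀ s, coeff s b ≠ 0 → s ∈ fl n i) : ∀ s, coeff s (a * b) ≠ 0 → s ∈ fl n i := by
  classical
  intro s hs
  rw [coeff_mul] at hs
  obtain ⟨x, hx, hx2⟩ := Finset.exists_ne_zero_of_sum_ne_zero hs
  rw [Finset.HasAntidiagonal.mem_antidiagonal] at hx
  intro j hj
  rw [← hx, Finsupp.add_apply, ha _ (left_ne_zero_of_mul hx2) j hj,
    hb _ (right_ne_zero_of_mul hx2) j hj]

lemma fl_add {i : ℕ} {a b : MvPolynomial (Fin n) k} (ha : ∀ s, coeff s a ≠ 0 → s ∈ fl n i)
    (hb : ∀ s, coeff s b ≠ 0 → s ∈ fl n i) : ∀ s, coeff s (a + b) ≠ 0 → s ∈ fl n i := by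
  intro s hs
  rw [coeff_add] at hs
  by_cases h : coeff s a = 0
  · rw [h, zero_add] at hs
    exact hb s hs
  · exact ha s h

lemma fl_C {i : ℕ} (a : k) : ∀ s, coeff s (C a : MvPolynomial (Fin n) k) ≠ 0 → s ∈ fl n i := by
  classical
  intro s hs
  rw [coeff_C] at hs
  by_cases h : (0 : Fin n →₀ ℕ) = s
  · rw [← h]
    intro j _
    rfl
  · rw [if_neg h] at hs
    exact absurd rfl hs

lemma supLE_of_mem {i : ℕ} {f : F} (hf : f ∈ Fi k F (n := n) i) : SupLE k (fl n i) f := by
  classical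
  have hne : ∀ b : MvPolynomial (Fin n) k, b ≠ 0 → algebraMap (MvPolynomial (Fin n) k) F b ≠ 0 := by
    intro b hb
    rwa [Ne, IsFractionRing.to_map_eq_zero_iff]
  unfold Fi at hf
  induction hf using IntermediateField.adjoin_induction with
  | mem y hy =>
    obtain ⟨j, hj, rfl⟩ := hy
    refine ⟨X j, 1, ?_, ?_, one_ne_zero, by rw [map_one, mul_one]; rfl⟩
    · intro s hs
      rw [coeff_X] at hs
      by_cases h : Finsupp.single j 1 = s
      · rw [← h]
        intro l hl
        have hj' : j.val < i := hj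
        rw [Finsupp.single_apply, if_neg]
        rintro rfl
        omega
      · rw [if_neg h] at hs
        exact absurd rfl hs
    · exact fl_C 1
  | algebraMap a =>
    refine ⟨C a, 1, fl_C a, fl_C 1, one_ne_zero, ?_⟩
    rw [map_one, mul_one, IsScalarTower.algebraMap_apply k (MvPolynomial (Fin n) k) F]
    rfl
  | add f g _ _ hf hg =>
    obtain ⟨a, b, ha, hb, hb0, h1⟩ := hf
    obtain ⟨a', b', ha', hb', hb0', h1'⟩ := hg
    refine ⟨a * b' + a' * b, b * b', fl_add (fl_mul ha hb') (fl_mul ha' hb), fl_mul hb hb',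
      mul_ne_zero hb0 hb0', ?_⟩
    rw [map_mul, map_add, map_mul, map_mul, ← h1, ← h1']
    ring
  | mul f g _ _ hf hg =>
    obtain ⟨a, b, ha, hb, hb0, h1⟩ := hf
    obtain ⟨a', b', ha', hb', hb0', h1'⟩ := hg
    refine ⟨a * a', b * b', fl_mul ha ha', fl_mul hb hb', mul_ne_zero hb0 hb0', ?_⟩
    rw [map_mul, map_mul, ← h1, ← h1']
    ring
  | inv f _ hf =>
    by_cases hf0 : f = 0
    · refine ⟨C 0, 1, fl_C 0, fl_C 1, one_ne_zero, ?_⟩
      rw [hf0, inv_zero, zero_mul, map_zero, map_zero]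
    obtain ⟨a, b, ha, hb, hb0, h1⟩ := hf
    have ha0 : a ≠ 0 := by
      rintro rfl
      rw [map_zero] at h1
      exact (mul_ne_zero hf0 (hne b hb0)) h1
    exact ⟨b, a, hb, ha, ha0, by rw [← h1, inv_mul_cancel_left₀ hf0]⟩

lemma poly_mem {i : ℕ} (a : MvPolynomial (Fin n) k) (ha : ∀ s, coeff s a ≠ 0 → s ∈ fl n i) :
    algebraMap (MvPolynomial (Fin n) k) F a ∈ Fi k F (n := n) i := by
  rw [a.as_sum, map_sum]
  refine sum_mem fun s hs => ?_
  rw [monomial_eq, map_mul, Finsupp.prod, map_prod]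
  refine mul_mem ?_ (prod_mem fun j hj => ?_)
  · have : algebraMap (MvPolynomial (Fin n) k) F (C (coeff s a)) = algebraMap k F (coeff s a) :=
      (IsScalarTower.algebraMap_apply _ _ _ _).symm
    rw [this]
    exact (Fi k F (n := n) i).algebraMap_mem _
  · rw [map_pow]
    apply pow_mem
    apply xx_mem
    by_contra hcon
    have h1 := ha s (MvPolynomial.mem_support_iff.1 hs) j (by omega)
    exact (Finsupp.mem_support_iff.1 hj) h1

end flags

section main

variable {K : Type u} [Field K] {n : ℕ}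
  {L : Type u} [Field L] [Algebra (MvPolynomial (Fin n) K) L]
  [IsFractionRing (MvPolynomial (Fin n) K) L]
  [Algebra K L] [IsScalarTower K (MvPolynomial (Fin n) K) L]

/-- An element of infinite order of a finitely generated group of birational transformations is not
conjugate to its powers with exponent a power of a suitable prime if it has bounded degree on the
first `m` coordinates and the elements which conjugate it to powers preserve the fields generated by
the first `i` coordinates, `m ≤ i ≤ n`. -/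
theorem not_conj {P : ℕ → Prop} (hval : ValFor K P) (H : Subgroup (L ≃ₐ[K] L)) (hH : H.FG)
    (m : ℕ) (hmn : m ≤ n)
    (c : H) (hpres : ∀ h ∈ H, (∃ k : ℕ, 1 ≤ k ∧ (h * c * h⁻¹ = (c : L ≃ₐ[K] L) ^ k ∨
      h⁻¹ * c * h = (c : L ≃ₐ[K] L) ^ k)) → ∀ i, m ≤ i → i ≤ n → ∀ j : Fin n, j.val < i →
      h (xx K L j) ∈ Fi K L (n := n) i)
    (D : ℕ) (hD : ∀ (j : ℕ) (i : Fin n), i.val < m → SupLE K (dg n D)
      (((c : L ≃ₐ[K] L) ^ j) (xx K (n := n) L i)))
    (hc : ∀ N : ℕ, 1 ≤ N → c ^ N ≠ 1) :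
    ∃ p : ℕ, p.Prime ∧ P p ∧ ∀ J : ℕ, 1 ≤ J → ¬ IsConj c (c ^ p ^ J) := by
  obtain ⟨p, hp, hMp, O, E, hE, hEf, e, hpO, hred⟩ := exists_reduction (n := n) hval H hH
  refine ⟨p, hp, hMp, fun J hJ hcc => ?_⟩
  obtain ⟨g0, hg0⟩ := isConj_iff.1 hcc
  -- `c = g * c ^ p ^ J * g⁻¹`
  let g : H := g0⁻¹
  have hconj : g * c ^ p ^ J * g⁻¹ = c := by
    rw [← hg0]
    show g0⁻¹ * (g0 * c * g0⁻¹) * g0⁻¹⁻¹ = c
    group
  have hgc : g⁻¹ * c * g = c ^ p ^ J := by
    conv_lhs => rw [← hconj]
    group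
  let k := IsLocalRing.ResidueField O
  let F := FractionRing (MvPolynomial (Fin n) k)
  let G := FractionRing (MvPolynomial (Fin n) E)
  let ι : G →+* F := emb e n G F
  have hι : Function.Injective ι := ι.injective
  -- the reduction homomorphism
  have hex : ∀ h : H, ∃ (φ : F →ₐ[k] F) (σ : G ≃ₐ[E] G), Red O (n := n) (h : L ≃ₐ[K] L) φ ∧
      (∀ g, InE e n g → InE e n (φ g)) ∧ ∀ y, ι (σ y) = φ (ι y) := by
    intro h
    obtain ⟨φ, h1, h2⟩ := hred h h.2
    obtain ⟨ψ, h3, h4⟩ := hred (h : L ≃ₐ[K] L)⁻¹ (H.inv_mem h.2)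
    have e1 : φ.comp ψ = AlgHom.id k F := by
      have h5 := h1.mul h3
      rw [mul_inv_cancel] at h5
      exact h5.unique (Red.one (O := O) (n := n))
    have e2 : ψ.comp φ = AlgHom.id k F := by
      have h5 := h3.mul h1
      rw [inv_mul_cancel] at h5
      exact h5.unique (Red.one (O := O) (n := n))
    obtain ⟨σ, hσ⟩ := exists_restrict e ι (emb_const e n G F) φ ψ
      (fun y => congrArg (fun f : F →ₐ[k] F => f y) e1)
      (fun y => congrArg (fun f : F →ₐ[k] F => f y) e2)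
      (fun y => (inE_iff e n G F _).1 (h2 _ ((inE_iff e n G F _).2 ⟨y, rfl⟩)))
      (fun y => (inE_iff e n G F _).1 (h4 _ ((inE_iff e n G F _).2 ⟨y, rfl⟩)))
    exact ⟨φ, σ, h1, h2, hσ⟩
  choose φ σ hφ hφE hσ using hex
  have hφmul : ∀ a b : H, φ (a * b) = (φ a).comp (φ b) := fun a b =>
    Red.unique (hφ (a * b)) ((hφ a).mul (hφ b))
  have hσmul : ∀ a b : H, σ (a * b) = σ a * σ b := by
    intro a b
    ext y
    apply hι
    rw [hσ, hφmul]
    show φ a (φ b (ι y)) = ι (σ a (σ b y))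
    rw [hσ, hσ]
  let θ : H →* (G ≃ₐ[E] G) := MonoidHom.mk' σ hσmul
  have hθ : ∀ h : H, θ h = σ h := fun h => rfl
  -- characteristic
  have hpf : Fact p.Prime := ⟨hp⟩
  have hchk : CharP k p := by
    rw [CharP.charP_iff_prime_eq_zero hp]
    rw [map_natCast] at hpO
    exact hpO
  have hchE : CharP E p := by
    rw [CharP.charP_iff_prime_eq_zero hp]
    apply e.injective
    rw [map_natCast, map_zero]
    exact CharP.cast_eq_zero k p
  -- reductions of the coordinates
  have hxr : ∀ i : Fin n, Rel O (n := n) (xx K L i) (xx k F i) := fun i => by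
    have := rel_ev O L F (X i : MvPolynomial (Fin n) O)
    rwa [ev_X, rd_X] at this
  have hxE : ∀ i : Fin n, InE e n (xx k F i) := by
    intro i
    have := InE.of_map (e := e) (F := F) (X i : MvPolynomial (Fin n) E)
    rwa [map_X] at this
  -- the flag is preserved
  have hflag : ∀ (h : H), (∃ k : ℕ, 1 ≤ k ∧ (h * c * h⁻¹ = c ^ k ∨ h⁻¹ * c * h = c ^ k)) →
      ∀ (i : ℕ), m ≤ i → i ≤ n → ∀ f ∈ Fi E G (n := n) i, σ h f ∈ Fi E G (n := n) i := by
    intro h hk i hmi hin f hf
    have hk' : ∃ k : ℕ, 1 ≤ k ∧ ((h : L ≃ₐ[K] L) * c * (h : L ≃ₐ[K] L)⁻¹ = (c : L ≃ₐ[K] L) ^ k ∨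
        (h : L ≃ₐ[K] L)⁻¹ * c * h = (c : L ≃ₐ[K] L) ^ k) := by
      obtain ⟨k, hk1, hk2⟩ := hk
      refine ⟨k, hk1, hk2.imp (fun e => ?_) (fun e => ?_)⟩
      · exact congrArg (fun x : H => (x : L ≃ₐ[K] L)) e
      · exact congrArg (fun x : H => (x : L ≃ₐ[K] L)) e
    have h1 : Fi E G (n := n) i ≤ (Fi E G (n := n) i).comap (σ h : G →ₐ[E] G) := by
      conv_lhs => unfold Fi
      rw [IntermediateField.adjoin_le_iff]
      rintro _ ⟨j, hj, rfl⟩
      show σ h (xx E G j) ∈ Fi E G (n := n) i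
      have h2 := supLE_of_mem (hpres h h.2 hk' i hmi hin j hj)
      have h0 : (0 : Fin n →₀ ℕ) ∈ fl n i := fun j _ => rfl
      have h3 := h2.red h0 ((hφ h) _ _ (hxr j))
      obtain ⟨a, b, ha, hb, hb0, hab⟩ := descend e (hφE h _ (hxE j)) h3
      have h4 : σ h (xx E G j) = algebraMap _ G a / algebraMap _ G b := by
        apply hι
        rw [hσ, map_div₀]
        have e1 : ι (xx E G j) = xx k F j := emb_xx e n G F j
        have e2 : ∀ q, ι (algebraMap (MvPolynomial (Fin n) E) G q) =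
          algebraMap (MvPolynomial (Fin n) k) F (MvPolynomial.map e q) := emb_alg e n G F
        rw [e1, e2, e2, eq_div_iff (map_ne (F := F) e hb0), hab]
      rw [h4]
      exact div_mem (poly_mem a ha) (poly_mem b hb)
    exact h1 hf
  have hinv : ∀ h : H, (σ h)⁻¹ = σ h⁻¹ := fun h => (map_inv θ h).symm
  -- finite order on the first coordinates
  obtain ⟨N0, hN0, hfix0⟩ := finite_of_bdd (n := n) e (hφ c) (hφE c) D m hD
  have hφpow : ∀ j : ℕ, φ (c ^ j) = φ c ^ j := by
    intro j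
    have h1 := (hφ c).pow j
    have h2 := hφ (c ^ j)
    exact Red.unique h2 h1
  have hm0 : ∀ f ∈ Fi E G (n := n) m, ((θ c) ^ N0) f = f := by
    have hle : Fi E G (n := n) m ≤ IntermediateField.fixedField (Subgroup.zpowers ((θ c) ^ N0)) := by
      unfold Fi
      rw [IntermediateField.adjoin_le_iff]
      rintro _ ⟨i, hi, rfl⟩
      have hbase : ((θ c) ^ N0) (xx E G i) = xx E G i := by
        apply hι
        rw [← map_pow, hθ, hσ, hφpow]
        have e1 : ι (xx E G i) = xx k F i := emb_xx e n G F i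
        rw [e1]
        exact hfix0 i hi
      rw [SetLike.mem_coe, IntermediateField.mem_fixedField_iff]
      intro τ hτ
      have h3 : Subgroup.zpowers ((θ c) ^ N0) ≤ MulAction.stabilizer (G ≃ₐ[E] G) (xx E G i) := by
        rw [Subgroup.zpowers_le, MulAction.mem_stabilizer_iff]
        exact hbase
      exact MulAction.mem_stabilizer_iff.1 (h3 hτ)
    intro f hf
    have h4 := hle hf
    rw [IntermediateField.mem_fixedField_iff] at h4
    exact h4 _ (Subgroup.mem_zpowers _)
  obtain ⟨N, hN, hfix⟩ := tower (E := E) (F := G) (n := n) (p := p) (m := m) hJ (θ c) (θ g)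
    (by rw [← map_pow, ← map_mul, ← map_inv, ← map_mul, hconj])
    (fun i hmi hin f hf => ⟨hflag c ⟨1, le_rfl, Or.inl (by rw [pow_one]; group)⟩ i hmi hin f hf, by
      rw [hθ, hinv]
      exact hflag c⁻¹ ⟨1, le_rfl, Or.inl (by rw [pow_one]; group)⟩ i hmi hin f hf,
      hflag g ⟨p ^ J, Nat.one_le_pow _ _ hp.pos, Or.inr hgc⟩ i hmi hin f hf, by
      rw [hθ, hinv]
      exact hflag g⁻¹ ⟨p ^ J, Nat.one_le_pow _ _ hp.pos, Or.inl (by rw [inv_inv]; exact hgc)⟩
        i hmi hin f hf⟩)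
    ⟨N0, hN0, hm0⟩ (n - m) (by omega)
  -- the reduction of `c ^ N` is trivial
  have hred1 : Red O (n := n) ((c : L ≃ₐ[K] L) ^ N) (AlgHom.id k F) := by
    have h1 : φ (c ^ N) = AlgHom.id k F := by
      refine eq_id_of_fix (G := F) (n := n) (φ (c ^ N)) ?_
      intro i
      have h2 : ((θ c) ^ N) (xx E G i) = xx E G i := hfix _ (xx_mem (by have := i.2; omega))
      rw [← map_pow, hθ] at h2
      have h3 := hσ (c ^ N) (xx E G i)
      rw [h2] at h3
      have e1 : ι (xx E G i) = xx k F i := emb_xx e n G F i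
      rw [e1] at h3
      exact h3.symm
    rw [← h1]
    exact hφ (c ^ N)
  have hcN : (g : L ≃ₐ[K] L) * ((c : L ≃ₐ[K] L) ^ N) ^ p ^ J * (g : L ≃ₐ[K] L)⁻¹ =
      (c : L ≃ₐ[K] L) ^ N := by
    have h1 := congrArg (fun x : H => (x : L ≃ₐ[K] L)) hconj
    have h2 : (g : L ≃ₐ[K] L) * (c : L ≃ₐ[K] L) ^ p ^ J * (g : L ≃ₐ[K] L)⁻¹ = c := h1
    rw [← pow_mul, mul_comm N, pow_mul, ← conj_pow, h2]
  have hone := eq_one_of_conj (n := n) hJ hpO hred1 (hφ g) (by
    have := hφ g⁻¹
    exact this) hcN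
  exact hc N hN (Subtype.ext hone)

end main

end Pool.Agent.W2helper35.CR
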