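import Pool.Agent.W2helper35.CR.Hom
import Pool.Agent.W2helper35.CR.Deg
import Pool.Agent.H26R2.Bass.Main

set_option autoImplicit false
set_option linter.unusedSectionVars false

/-!
The Bass trace conjecture for groups of birational transformations.
-/

namespace Pool.Agent.W2helper35.CR

open MvPolynomial
open Pool.Agent.H26R2.Bass (Good tau tau_eq ind exists_local tf_zero_of_good good_of_hom
  bass_of_local)
open Pool.Agent.H26R2.IdemLI (AlmostDiv)

universe u v w

section defs

variable {K : Type u} [Field K] (n : ℕ) {L : Type u} [Field L] [Algebra (MvPolynomial (Fin n) K) L]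

/-- The degree of the rational function `f` is at most `D`. -/
def DegreeLE (D : ℕ) (f : L) : Prop :=
  ∃ a b : MvPolynomial (Fin n) K, a.totalDegree ≤ D ∧ b.totalDegree ≤ D ∧ b ≠ 0 ∧
    f * algebraMap (MvPolynomial (Fin n) K) L b = algebraMap (MvPolynomial (Fin n) K) L a

variable [Algebra K L]

/-- the field generated by the first `i` coordinates -/
noncomputable def Flag (K : Type u) [Field K] (n : ℕ) (L : Type u) [Field L]
    [Algebra (MvPolynomial (Fin n) K) L] [Algebra K L] (i : ℕ) : IntermediateField K L :=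
  IntermediateField.adjoin K
    {x : L | ∃ j : Fin n, j.val < i ∧ x = algebraMap (MvPolynomial (Fin n) K) L (X j)}

/-- The powers of `c` have bounded degree on the first `m` coordinates. -/
def BoundedOn (m : ℕ) (c : L ≃ₐ[K] L) : Prop :=
  ∃ D : ℕ, ∀ (k : ℕ) (j : Fin n), j.val < m →
    DegreeLE (K := K) n D ((c ^ k) (algebraMap (MvPolynomial (Fin n) K) L (X j)))

/-- `h` maps the fields generated by the first `i` coordinates, `m ≤ i < n`, to themselves. -/
def PreservesFlag (m : ℕ) (h : L ≃ₐ[K] L) : Prop :=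
  ∀ i, m ≤ i → i < n → ∀ f ∈ Flag K n L i, h f ∈ Flag K n L i

/-- Both characteristics are zero, or the characteristic of `K` is a prime which is not a unit. -/
def Compat (K : Type u) [Field K] (R : Type v) [CommRing R] : Prop :=
  (CharZero K ∧ CharZero R) ∨ ∃ p : ℕ, p.Prime ∧ CharP K p ∧ ¬ IsUnit (p : R)

/-- One of the elements `h c h⁻¹`, `h⁻¹ c h` is a power `c ^ k`, `k ≥ 1`. -/
def Commensurates {G : Type v} [Group G] (h c : G) : Prop :=
  ∃ k : ℕ, 1 ≤ k ∧ (h * c * h⁻¹ = c ^ k ∨ h⁻¹ * c * h = c ^ k)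

/-- `c` has bounded degree on the first `m` coordinates, and the elements of `H` which commensurate
`c` preserve the fields of rational functions in the first `i` coordinates, `m ≤ i < n`. -/
def TameA (H : Subgroup (L ≃ₐ[K] L)) (c : L ≃ₐ[K] L) : Prop :=
  ∃ m ≤ n, BoundedOn n m c ∧ ∀ h ∈ H, Commensurates h c → PreservesFlag n m h

/-- The degrees of the powers of `c` grow exponentially. -/
def TameB (c : L ≃ₐ[K] L) : Prop :=
  ∃ ε : ℝ, 0 < ε ∧ ∀ k D : ℕ,
    (∀ j, DegreeLE (K := K) n D ((c ^ k) (algebraMap (MvPolynomial (Fin n) K) L (X j)))) →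
      Real.exp (ε * k) ≤ D

/-- `c` is not conjugate in `H` to a proper power. -/
def TameC {G : Type v} [Group G] (H : Subgroup G) (c : G) : Prop :=
  ∀ m : ℕ, 2 ≤ m → ∀ h ∈ H, h * c * h⁻¹ ≠ c ^ m

/-- conditions on an element of a group of birational transformations -/
def Tame (R : Type v) [CommRing R] (H : Subgroup (L ≃ₐ[K] L)) (c : L ≃ₐ[K] L) : Prop :=
  (Compat K R ∧ TameA n H c) ∨ TameB n c ∨ TameC H c

/-- Some homomorphism from `H` to a Cremona group, that is, to the group of the `K`-automorphisms of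
a field `L` of rational functions in `n` variables over a field `K`, maps `h` to an element of
infinite order which is tame in the image. -/
def Detected (R : Type v) [CommRing R] (H : Type w) [Group H] (h : H) : Prop :=
  ∃ (K : Type u) (_ : Field K) (n : ℕ) (L : Type u) (_ : Field L)
    (_ : Algebra (MvPolynomial (Fin n) K) L) (_ : IsFractionRing (MvPolynomial (Fin n) K) L)
    (_ : Algebra K L) (_ : IsScalarTower K (MvPolynomial (Fin n) K) L) (f : H →* (L ≃ₐ[K] L)),
    ¬ IsOfFinOrder (f h) ∧ Tame n R f.range (f h)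

end defs

section

variable {K : Type u} [Field K] {n : ℕ} {L : Type u} [Field L] [Algebra (MvPolynomial (Fin n) K) L]
  [IsFractionRing (MvPolynomial (Fin n) K) L]
  [Algebra K L] [IsScalarTower K (MvPolynomial (Fin n) K) L]

lemma Fi_top (f : L) :
    f ∈ Fi K L (n := n) n := by
  obtain ⟨a, b, -, rfl⟩ := IsFractionRing.div_surjective (A := MvPolynomial (Fin n) K) f
  refine div_mem (poly_mem a ?_) (poly_mem b ?_)
  · intro s _ j hj
    exact absurd j.2 (by omega)
  · intro s _ j hj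
    exact absurd j.2 (by omega)

lemma Flag_eq (i : ℕ) : Flag K n L i = Fi K L (n := n) i := by
  unfold Flag Fi
  congr 1
  ext x
  constructor
  · rintro ⟨j, hj, rfl⟩
    exact ⟨j, hj, rfl⟩
  · rintro ⟨j, hj, rfl⟩
    exact ⟨j, hj, rfl⟩

end

section

variable {R : Type v} [CommRing R] [IsDomain R]

/-- not conjugate to proper powers -/
lemma good_of_no_power {H : Type w} [Group H] (c : H)
    (hc : ∀ m : ℕ, 2 ≤ m → ¬ IsConj c (c ^ m)) : Good R c := by
  obtain ⟨q, hq⟩ := CharP.exists R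
  by_cases h0 : q = 0
  · subst h0
    have hR : CharZero R := CharP.charP_to_charZero R
    refine Or.inr (Or.inr ⟨hR, ?_⟩)
    rintro ⟨M, J, hM, hJ, h⟩
    have hJ0 : J ≠ 0 := by omega
    have h1 : M + 1 ≤ (M + 1) ^ J := Nat.le_self_pow hJ0 _
    refine hc ((M + 1) ^ J) (by omega) (h (M + 1) ?_)
    exact (Nat.coprime_self_add_left (m := M) (n := 1)).2 (Nat.coprime_one_left M)
  · have hqp : q.Prime := (CharP.char_is_prime_or_zero R q).resolve_right h0
    refine Or.inr (Or.inl ⟨q, hqp, ?_, fun j hj => ?_⟩)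
    · rw [CharP.cast_eq_zero R q]
      exact not_isUnit_zero
    · have h1 : q ≤ q ^ j := Nat.le_self_pow (by omega) _
      exact hc (q ^ j) (hqp.two_le.trans h1)

lemma good_of_bounded {K : Type u} [Field K] {n : ℕ} {L : Type u} [Field L]
    [Algebra (MvPolynomial (Fin n) K) L] [IsFractionRing (MvPolynomial (Fin n) K) L]
    [Algebra K L] [IsScalarTower K (MvPolynomial (Fin n) K) L]
    (H : Subgroup (L ≃ₐ[K] L)) (hH : H.FG)
    (c : H) (hc : ¬ IsOfFinOrder c) (hK : Compat K R) (m : ℕ) (hm : m ≤ n)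
    (hb : BoundedOn n m (c : L ≃ₐ[K] L))
    (hpres : ∀ h ∈ H, Commensurates h (c : L ≃ₐ[K] L) → PreservesFlag n m h) : Good R c := by
  obtain ⟨D, hD⟩ := hb
  have hc' : ∀ N : ℕ, 1 ≤ N → c ^ N ≠ 1 := fun N hN h =>
    hc (isOfFinOrder_iff_pow_eq_one.2 ⟨N, hN, h⟩)
  have hcore := fun (P : ℕ → Prop) (hP : ValFor K P) =>
    not_conj (L := L) (n := n) hP H hH m hm c (by
      intro h hh hk i hmi hin j hj
      rcases Nat.lt_or_ge i n with hlt | hge
      · rw [← Flag_eq]
        exact hpres h hh hk i hmi hlt _ (IntermediateField.subset_adjoin _ _ ⟨j, hj, rfl⟩)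
      · have : i = n := by omega
        subst this
        exact Fi_top _) D (fun k i hi => DegLE.sup (hD k i hi)) hc'
  rcases hK with ⟨hK0, hR0⟩ | ⟨p, hp, hKp, hpR⟩
  · refine Or.inr (Or.inr ⟨hR0, ?_⟩)
    rintro ⟨M, J, hM, hJ, h⟩
    obtain ⟨p, hp, hMp, h1⟩ := hcore _ (valFor_zero K M)
    refine h1 J hJ (h p ?_)
    rw [Nat.Prime.coprime_iff_not_dvd hp]
    intro h2
    exact absurd (Nat.le_of_dvd (by omega) h2) (by omega)
  · obtain ⟨q, hq, rfl, h1⟩ := hcore _ (valFor_p K p hp)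
    exact Or.inr (Or.inl ⟨q, hq, hpR, h1⟩)

lemma fg_map {G : Type v} [Group G] {G' : Type w} [Group G'] {H : Subgroup G} (hH : H.FG)
    (f : G →* G') : (H.map f).FG := by
  classical
  obtain ⟨T, hT⟩ := hH
  refine ⟨T.image f, ?_⟩
  rw [Finset.coe_image, ← MonoidHom.map_closure, hT]

lemma Tame.mono {K : Type u} [Field K] {n : ℕ} {L : Type u} [Field L]
    [Algebra (MvPolynomial (Fin n) K) L] [Algebra K L] {H H' : Subgroup (L ≃ₐ[K] L)}
    {c : L ≃ₐ[K] L} (h : Tame n R H c) (hle : H' ≤ H) : Tame n R H' c := by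
  rcases h with ⟨h1, m, hm, hb, hp⟩ | h | h
  · exact Or.inl ⟨h1, m, hm, hb, fun g hg => hp g (hle hg)⟩
  · exact Or.inr (Or.inl h)
  · exact Or.inr (Or.inr fun m hm g hg => h m hm g (hle hg))

/-- elements with tame images are good -/
theorem good_of_tame {K : Type u} [Field K] {n : ℕ} {L : Type u} [Field L]
    [Algebra (MvPolynomial (Fin n) K) L] [IsFractionRing (MvPolynomial (Fin n) K) L]
    [Algebra K L] [IsScalarTower K (MvPolynomial (Fin n) K) L]
    {H : Type w} [Group H] (hH : Group.FG H)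
    (f : H →* (L ≃ₐ[K] L)) (c : H) (hc : ¬ IsOfFinOrder (f c)) (ht : Tame n R f.range (f c)) :
    Good R c := by
  have hfg : f.range.FG := by
    rw [MonoidHom.range_eq_map]
    exact fg_map (Group.fg_def.1 hH) f
  apply good_of_hom f.rangeRestrict c
  have hc' : ¬ IsOfFinOrder (f.rangeRestrict c) := by
    intro h
    apply hc
    exact f.range.subtype.isOfFinOrder h
  rcases ht with ⟨h1, m, hm, hb, hp⟩ | ⟨ε, hε, h⟩ | h
  · exact good_of_bounded f.range hfg (f.rangeRestrict c) hc' h1 m hm hb hp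
  · apply good_of_no_power
    intro m hm hconj
    obtain ⟨g, hg⟩ := isConj_iff.1 hconj
    refine no_power_of_exp (K := K) (n := n) (L := L) (c := f c) hε ?_ m hm (g : L ≃ₐ[K] L)
      (congrArg (fun x : f.range => (x : L ≃ₐ[K] L)) hg)
    intro k D hkD
    exact h k D fun j => hkD j
  · apply good_of_no_power
    intro m hm hconj
    obtain ⟨g, hg⟩ := isConj_iff.1 hconj
    exact h m hm g g.2 (congrArg (fun x : f.range => (x : L ≃ₐ[K] L)) hg)

/-- vanishing at one conjugacy class -/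
theorem bass_at {Γ : Type w} [Group Γ] (c : Γ)
    (hgood : ∀ (H : Subgroup Γ) (hc : c ∈ H), H.FG → Good R (⟨c, hc⟩ : H))
    {k : ℕ} (A : Matrix (Fin k) (Fin k) (MonoidAlgebra R Γ)) (hA : A * A = A) :
    ∑ i : Fin k, ∑ᶠ (h : Γ) (_ : IsConj h c), (A i i).coeff h = 0 := by
  show tau A c = 0
  rw [tau_eq]
  by_contra hne
  obtain ⟨H, hH, B, hB, h, hconj, hne'⟩ := exists_local A hA c hne
  apply hne'
  apply tf_zero_of_good B hB h
  obtain ⟨γ, hγ⟩ := isConj_iff.1 hconj
  let F : Γ →* Γ := (MulAut.conj γ).toMonoidHom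
  have hmem : c ∈ H.map F := ⟨h, h.2, hγ⟩
  have hfg : (H.map F).FG := fg_map hH F
  let f : H →* H.map F := (F.comp H.subtype).codRestrict (H.map F) (fun x => ⟨x, x.2, rfl⟩)
  apply good_of_hom f h
  have h1 : f h = ⟨c, hmem⟩ := Subtype.ext hγ
  rw [h1]
  exact hgood (H.map F) hmem hfg

/-- the local theorem for groups of birational transformations -/
theorem bass_cremona {K : Type u} [Field K] {n : ℕ} {L : Type u} [Field L]
    [Algebra (MvPolynomial (Fin n) K) L] [IsFractionRing (MvPolynomial (Fin n) K) L]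
    [Algebra K L] [IsScalarTower K (MvPolynomial (Fin n) K) L]
    (Γ : Subgroup (L ≃ₐ[K] L)) (c : Γ)
    (hc : ¬ IsOfFinOrder c) (ht : Tame n R Γ (c : L ≃ₐ[K] L))
    {k : ℕ} (A : Matrix (Fin k) (Fin k) (MonoidAlgebra R Γ)) (hA : A * A = A) :
    ∑ i : Fin k, ∑ᶠ (h : Γ) (_ : IsConj h c), (A i i).coeff h = 0 := by
  apply bass_at c _ A hA
  intro H hcH hH
  have hH' : Group.FG H := (Group.fg_iff_subgroup_fg H).2 hH
  refine good_of_tame (n := n) hH' (Γ.subtype.comp H.subtype) ⟨c, hcH⟩ ?_ ?_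
  · intro h
    apply hc
    have h1 : IsOfFinOrder (Γ.subtype c) := h
    exact (Function.Injective.isOfFinOrder_iff (f := Γ.subtype) Γ.subtype_injective).1 h1
  · refine ht.mono ?_
    rintro _ ⟨x, rfl⟩
    exact (x : Γ).2

/-- the global theorem -/
theorem bass_detected {Γ : Type w} [Group Γ]
    (hΓ : ∀ H : Subgroup Γ, H.FG → ∀ h : H, ¬ IsOfFinOrder h → Detected.{u} R H h)
    {k : ℕ} (A : Matrix (Fin k) (Fin k) (MonoidAlgebra R Γ)) (hA : A * A = A) (g : Γ)
    (hg : ¬ IsUnit ((orderOf g : ℕ) : R)) :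
    ∑ i : Fin k, ∑ᶠ (h : Γ) (_ : IsConj h g), (A i i).coeff h = 0 := by
  refine bass_of_local ?_ A hA g hg
  intro H hH h hh
  have hh' : ¬ IsOfFinOrder h := fun hf => hh (isOfFinOrder_iff_pow_eq_one.1 hf)
  obtain ⟨K, _, n, L, _, _, _, _, _, f, h1, h2⟩ := hΓ H hH h hh'
  exact good_of_tame (n := n) ((Group.fg_iff_subgroup_fg H).2 hH) f h h1 h2

end

end Pool.Agent.W2helper35.CR
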