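import Mathlib

set_option autoImplicit false
set_option linter.unusedSectionVars false

/-!
Automorphisms of a rational function field of characteristic `p` which are infinitely `p`-divisible.
-/

namespace Pool.Agent.W2helper35.CR

open Matrix

universe u v

section matrices

variable {Λ : Type u} [Field Λ] {p : ℕ} [hp : Fact p.Prime] [CharP Λ p]

lemma add_adj (A : Matrix (Fin 2) (Fin 2) Λ) : A + A.adjugate = A.trace • (1 : Matrix (Fin 2) (Fin 2) Λ) := by
  rw [Matrix.adjugate_fin_two]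
  ext i j
  fin_cases i <;> fin_cases j <;> simp [Matrix.trace_fin_two] <;> ring

lemma trace_pow_p (A : Matrix (Fin 2) (Fin 2) Λ) : (A ^ p).trace = A.trace ^ p := by
  have hcomm : Commute A A.adjugate := by
    show A * A.adjugate = A.adjugate * A
    rw [Matrix.mul_adjugate, Matrix.adjugate_mul]
  have hch : CharP (Matrix (Fin 2) (Fin 2) Λ) p := Matrix.charP p
  have h1 : (A + A.adjugate) ^ p = A ^ p + A.adjugate ^ p := add_pow_char_of_commute p hcomm
  rw [add_adj, ← Matrix.adjugate_pow, add_adj, smul_pow, one_pow] at h1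
  have h2 := congrFun (congrFun h1 0) 0
  simpa using h2.symm

lemma trace_pow_pp (A : Matrix (Fin 2) (Fin 2) Λ) (r : ℕ) :
    (A ^ p ^ r).trace = A.trace ^ p ^ r := by
  induction r with
  | zero => simp
  | succ r ih => rw [pow_succ, pow_mul, trace_pow_p, ih, ← pow_mul]

/-- every infinitely `p`-divisible element is algebraic over the prime field -/
def Perf (Λ : Type u) [Field Λ] (p : ℕ) : Prop :=
  ∀ t : Λ, (∀ r : ℕ, ∃ s : Λ, s ^ p ^ r = t) → ∃ r : ℕ, 1 ≤ r ∧ t ^ p ^ r = t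

omit [CharP Λ p] in
lemma finite_fix (r : ℕ) (hr : 1 ≤ r) : {y : Λ | y ^ p ^ r = y}.Finite := by
  classical
  have h1 : (Polynomial.X ^ p ^ r - Polynomial.X : Polynomial Λ) ≠ 0 :=
    FiniteField.X_pow_card_sub_X_ne_zero Λ (Nat.one_lt_pow (by omega) hp.out.one_lt)
  refine (Polynomial.X ^ p ^ r - Polynomial.X : Polynomial Λ).roots.toFinset.finite_toSet.subset ?_
  intro y hy
  have hy' : y ^ p ^ r = y := hy
  simp only [Finset.mem_coe, Multiset.mem_toFinset, Polynomial.mem_roots h1, Polynomial.IsRoot,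
    Polynomial.eval_sub, Polynomial.eval_pow, Polynomial.eval_X, hy', sub_self]

theorem scalar_power (hΛ : Perf Λ p) (A : Matrix (Fin 2) (Fin 2) Λ) (hA : A.det ≠ 0)
    (hdiv : ∀ r : ℕ, ∃ (B : Matrix (Fin 2) (Fin 2) Λ) (l : Λ), B.det ≠ 0 ∧ l ≠ 0 ∧
      A = l • B ^ p ^ r) :
    ∃ (N : ℕ) (l : Λ), 1 ≤ N ∧ l ≠ 0 ∧ A ^ N = l • (1 : Matrix (Fin 2) (Fin 2) Λ) := by
  classical
  have hCH : A * A = A.trace • A - A.det • (1 : Matrix (Fin 2) (Fin 2) Λ) := by
    ext i j
    fin_cases i <;> fin_cases j <;>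
      simp [Matrix.mul_apply, Fin.sum_univ_two, Matrix.trace_fin_two, Matrix.det_fin_two] <;> ring
  by_cases hs : A.trace = 0
  · refine ⟨2, -A.det, by omega, neg_ne_zero.2 hA, ?_⟩
    rw [pow_two, hCH, hs, zero_smul, zero_sub, neg_smul]
  -- the invariant
  obtain ⟨r, hr, ht⟩ := hΛ (A.det / A.trace ^ 2) (by
    intro r
    obtain ⟨B, l, hB, hl, e⟩ := hdiv r
    refine ⟨B.det / B.trace ^ 2, ?_⟩
    rw [e, Matrix.trace_smul, trace_pow_pp, Matrix.det_smul, Matrix.det_pow, smul_eq_mul, div_pow,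
      mul_pow, Fintype.card_fin, ← pow_mul, ← pow_mul, mul_comm 2 (p ^ r)]
    rw [mul_div_mul_left _ _ (pow_ne_zero 2 hl)])
  set t := A.det / A.trace ^ 2 with htdef
  obtain ⟨A', hA'def⟩ : ∃ A' : Matrix (Fin 2) (Fin 2) Λ, A' = (A.trace)⁻¹ • A := ⟨_, rfl⟩
  have hA'2 : A' * A' = A' - t • (1 : Matrix (Fin 2) (Fin 2) Λ) := by
    rw [hA'def, smul_mul_assoc, mul_smul_comm, hCH, smul_sub, smul_sub, smul_smul, smul_smul,
      smul_smul, smul_smul]
    congr 2
    · field_simp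
    · rw [htdef]
      field_simp
  let S : Set Λ := {y : Λ | y ^ p ^ r = y}
  have hSfin : Finite S := (finite_fix (p := p) r hr).to_subtype
  have hadd : ∀ y ∈ S, ∀ z ∈ S, y + z ∈ S := by
    intro y hy z hz
    show (y + z) ^ p ^ r = y + z
    rw [add_pow_char_pow, show y ^ p ^ r = y from hy, show z ^ p ^ r = z from hz]
  have hmul : ∀ y ∈ S, ∀ z ∈ S, y * z ∈ S := by
    intro y hy z hz
    show (y * z) ^ p ^ r = y * z
    rw [mul_pow, show y ^ p ^ r = y from hy, show z ^ p ^ r = z from hz]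
  have hneg : ∀ y ∈ S, -y ∈ S := by
    intro y hy
    have h0 : (-y + y) ^ p ^ r = (-y) ^ p ^ r + y ^ p ^ r := add_pow_char_pow _ _ _ _
    rw [neg_add_cancel, zero_pow (pow_ne_zero _ hp.out.ne_zero), show y ^ p ^ r = y from hy] at h0
    show (-y) ^ p ^ r = -y
    exact (neg_eq_of_add_eq_zero_left h0.symm).symm
  have h0S : (0 : Λ) ∈ S := by
    show (0 : Λ) ^ p ^ r = 0
    exact zero_pow (pow_ne_zero _ hp.out.ne_zero)
  have h1S : (1 : Λ) ∈ S := one_pow _
  have hpow : ∀ j : ℕ, ∃ w : S × S, A' ^ j = (w.1 : Λ) • (1 : Matrix (Fin 2) (Fin 2) Λ) +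
      (w.2 : Λ) • A' := by
    intro j
    induction j with
    | zero => exact ⟨(⟨1, h1S⟩, ⟨0, h0S⟩), by simp⟩
    | succ j ih =>
      obtain ⟨⟨⟨a, ha⟩, ⟨b, hb⟩⟩, e⟩ := ih
      refine ⟨(⟨-(b * t), hneg _ (hmul b hb t ht)⟩, ⟨a + b, hadd a ha b hb⟩), ?_⟩
      rw [pow_succ, e, add_mul, smul_mul_assoc, one_mul, smul_mul_assoc, hA'2, smul_sub, smul_smul]
      show a • A' + (b • A' - (b * t) • (1 : Matrix (Fin 2) (Fin 2) Λ)) =
        (-(b * t)) • (1 : Matrix (Fin 2) (Fin 2) Λ) + (a + b) • A'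
      rw [neg_smul, add_smul]
      abel
  choose w hw using hpow
  obtain ⟨j, l, hjl, hlt⟩ : ∃ j l, w j = w l ∧ j < l := by
    obtain ⟨j, l, hne, h⟩ := Finite.exists_ne_map_eq_of_infinite w
    rcases lt_or_gt_of_ne hne with h1 | h1
    · exact ⟨j, l, h, h1⟩
    · exact ⟨l, j, h.symm, h1⟩
  have hA'det : IsUnit A'.det := by
    rw [hA'def, Matrix.det_smul]
    exact isUnit_iff_ne_zero.2 (mul_ne_zero (pow_ne_zero _ (inv_ne_zero hs)) hA)
  have hA'u : IsUnit A' := (Matrix.isUnit_iff_isUnit_det A').2 hA'det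
  have h1 : A' ^ (l - j) = 1 := by
    have h2 : A' ^ j * A' ^ (l - j) = A' ^ j * 1 := by
      rw [← pow_add, Nat.add_sub_cancel' hlt.le, mul_one, hw j, hw l, hjl]
    exact (hA'u.pow j).mul_left_cancel h2
  refine ⟨l - j, A.trace ^ (l - j), by omega, pow_ne_zero _ hs, ?_⟩
  have h3 : A = A.trace • A' := by
    rw [hA'def, smul_smul, mul_inv_cancel₀ hs, one_smul]
  calc A ^ (l - j) = (A.trace • A') ^ (l - j) := by rw [← h3]
    _ = A.trace ^ (l - j) • A' ^ (l - j) := smul_pow _ _ _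
    _ = _ := by rw [h1]

end matrices

section moebius

variable {Λ : Type u} [Field Λ] {F : Type v} [Field F] [Algebra Λ F]

/-- the automorphism acts on `x` by the Möbius transformation of the matrix -/
def MR (x : F) (σ : F ≃ₐ[Λ] F) (A : Matrix (Fin 2) (Fin 2) Λ) : Prop :=
  A.det ≠ 0 ∧ ∃ c : F, c ≠ 0 ∧
    σ x = c * (algebraMap Λ F (A 0 0) * x + algebraMap Λ F (A 0 1)) ∧
    1 = c * (algebraMap Λ F (A 1 0) * x + algebraMap Λ F (A 1 1))

lemma MR.one (x : F) : MR x (1 : F ≃ₐ[Λ] F) 1 := by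
  refine ⟨by rw [Matrix.det_one]; exact one_ne_zero, 1, one_ne_zero, ?_, ?_⟩
  · simp
  · simp

lemma MR.mul {x : F} {σ τ : F ≃ₐ[Λ] F} {A B : Matrix (Fin 2) (Fin 2) Λ} (hσ : MR x σ A)
    (hτ : MR x τ B) : MR x (σ * τ) (B * A) := by
  obtain ⟨hA, c, hc, h1, h2⟩ := hσ
  obtain ⟨hB, d, hd, h3, h4⟩ := hτ
  refine ⟨by rw [Matrix.det_mul]; exact mul_ne_zero hB hA, σ d * c, ?_, ?_, ?_⟩
  · exact mul_ne_zero (by rwa [Ne, map_eq_zero]) hc
  · have e1 : (σ * τ) x = σ (τ x) := rfl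
    rw [e1, h3, map_mul, map_add, map_mul, σ.commutes, σ.commutes, Matrix.mul_apply,
      Matrix.mul_apply, Fin.sum_univ_two, Fin.sum_univ_two, map_add, map_add, map_mul, map_mul,
      map_mul, map_mul, h1]
    have e2 : algebraMap Λ F (B 0 1) = algebraMap Λ F (B 0 1) *
        (c * (algebraMap Λ F (A 1 0) * x + algebraMap Λ F (A 1 1))) := by rw [← h2, mul_one]
    linear_combination (σ d) * e2
  · have e1 : σ (1 : F) = 1 := map_one σ
    have e3 := congrArg σ h4
    rw [map_one, map_mul, map_add, map_mul, σ.commutes, σ.commutes, h1] at e3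
    rw [Matrix.mul_apply, Matrix.mul_apply, Fin.sum_univ_two, Fin.sum_univ_two, map_add, map_add,
      map_mul, map_mul, map_mul, map_mul]
    have e2 : algebraMap Λ F (B 1 1) = algebraMap Λ F (B 1 1) *
        (c * (algebraMap Λ F (A 1 0) * x + algebraMap Λ F (A 1 1))) := by rw [← h2, mul_one]
    linear_combination e3 + (σ d) * e2

lemma MR.pow {x : F} {σ : F ≃ₐ[Λ] F} {A : Matrix (Fin 2) (Fin 2) Λ} (hσ : MR x σ A) (j : ℕ) :
    MR x (σ ^ j) (A ^ j) := by
  induction j with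
  | zero => rw [pow_zero, pow_zero]; exact MR.one x
  | succ j ih =>
    rw [pow_succ', pow_succ]
    exact hσ.mul ih

lemma MR.fix {x : F} {σ : F ≃ₐ[Λ] F} {l : Λ}
    (h : MR x σ (l • (1 : Matrix (Fin 2) (Fin 2) Λ))) : σ x = x := by
  obtain ⟨-, c, hc, h1, h2⟩ := h
  simp only [Matrix.smul_apply, Matrix.one_apply_eq, Matrix.one_apply_ne (show (0 : Fin 2) ≠ 1 by
    decide), Matrix.one_apply_ne (show (1 : Fin 2) ≠ 0 by decide), smul_eq_mul, mul_one, mul_zero,
    map_zero, add_zero, zero_mul, zero_add] at h1 h2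
  rw [h1, ← mul_assoc, ← h2, one_mul]

/-- linear independence of `1, x, x ^ 2` -/
lemma indep {x : F} (hx : Transcendental Λ x) {a b c : Λ}
    (h : algebraMap Λ F a * x ^ 2 + algebraMap Λ F b * x + algebraMap Λ F c = 0) :
    a = 0 ∧ b = 0 ∧ c = 0 := by
  have h1 : (Polynomial.C a * Polynomial.X ^ 2 + Polynomial.C b * Polynomial.X +
      Polynomial.C c : Polynomial Λ) = 0 := by
    by_contra hne
    apply hx
    refine ⟨_, hne, ?_⟩
    rw [map_add, map_add, map_mul, map_mul, map_pow, Polynomial.aeval_C, Polynomial.aeval_C,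
      Polynomial.aeval_C, Polynomial.aeval_X]
    exact h
  refine ⟨?_, ?_, ?_⟩
  · have := congrArg (fun q => Polynomial.coeff q 2) h1
    simpa [Polynomial.coeff_X, Polynomial.coeff_C] using this
  · have := congrArg (fun q => Polynomial.coeff q 1) h1
    simpa [Polynomial.coeff_X, Polynomial.coeff_C] using this
  · have := congrArg (fun q => Polynomial.coeff q 0) h1
    simpa [Polynomial.coeff_X, Polynomial.coeff_C] using this

lemma MR.unique {x : F} (hx : Transcendental Λ x) {σ : F ≃ₐ[Λ] F} {A B : Matrix (Fin 2) (Fin 2) Λ}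
    (hA : MR x σ A) (hB : MR x σ B) : ∃ l : Λ, l ≠ 0 ∧ A = l • B := by
  obtain ⟨hA0, c, hc, h1, h2⟩ := hA
  obtain ⟨hB0, d, hd, h3, h4⟩ := hB
  -- cross multiplication
  have key : algebraMap Λ F (A 0 0 * B 1 0 - A 1 0 * B 0 0) * x ^ 2 +
      algebraMap Λ F (A 0 0 * B 1 1 + A 0 1 * B 1 0 - A 1 0 * B 0 1 - A 1 1 * B 0 0) * x +
      algebraMap Λ F (A 0 1 * B 1 1 - A 1 1 * B 0 1) = 0 := by
    have e1 : (algebraMap Λ F (A 0 0) * x + algebraMap Λ F (A 0 1)) *
        (algebraMap Λ F (B 1 0) * x + algebraMap Λ F (B 1 1)) =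
        (algebraMap Λ F (A 1 0) * x + algebraMap Λ F (A 1 1)) *
        (algebraMap Λ F (B 0 0) * x + algebraMap Λ F (B 0 1)) := by
      apply mul_left_cancel₀ (mul_ne_zero hc hd)
      calc _ = (c * (algebraMap Λ F (A 0 0) * x + algebraMap Λ F (A 0 1))) *
          (d * (algebraMap Λ F (B 1 0) * x + algebraMap Λ F (B 1 1))) := by ring
        _ = (c * (algebraMap Λ F (A 1 0) * x + algebraMap Λ F (A 1 1))) *
          (d * (algebraMap Λ F (B 0 0) * x + algebraMap Λ F (B 0 1))) := by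
          rw [← h1, ← h2, ← h3, ← h4, mul_one, one_mul]
        _ = _ := by ring
    simp only [map_sub, map_add, map_mul]
    linear_combination e1
  obtain ⟨k1, k2, k3⟩ := indep hx key
  -- the matrix `adj B * A` is scalar
  have hdetB : B 0 0 * B 1 1 - B 0 1 * B 1 0 ≠ 0 := by
    rw [Matrix.det_fin_two] at hB0
    exact hB0
  have hdetA : A 0 0 * A 1 1 - A 0 1 * A 1 0 ≠ 0 := by
    rw [Matrix.det_fin_two] at hA0
    exact hA0
  set Δ := B 0 0 * B 1 1 - B 0 1 * B 1 0 with hΔ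
  set m := A 0 0 * B 1 1 - A 1 0 * B 0 1 with hm
  have e0 : A 0 0 * Δ = m * B 0 0 := by
    rw [hΔ, hm]; linear_combination (-B 0 1) * k1
  have e2 : A 1 0 * Δ = m * B 1 0 := by
    rw [hΔ, hm]; linear_combination (-B 1 1) * k1
  have e1 : A 0 1 * Δ = m * B 0 1 := by
    rw [hΔ, hm]; linear_combination (-B 0 1) * k2 + (B 0 0) * k3
  have e3 : A 1 1 * Δ = m * B 1 1 := by
    rw [hΔ, hm]; linear_combination (-B 1 1) * k2 + (B 1 0) * k3
  have hm0 : m ≠ 0 := by
    intro h0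
    rw [h0, zero_mul] at e0 e2
    have h5 : A 0 0 = 0 := (mul_eq_zero.1 e0).resolve_right hdetB
    have h6 : A 1 0 = 0 := (mul_eq_zero.1 e2).resolve_right hdetB
    apply hdetA
    rw [h5, h6]
    ring
  refine ⟨m / Δ, div_ne_zero hm0 hdetB, ?_⟩
  ext i j
  fin_cases i <;> fin_cases j
  · show A 0 0 = m / Δ * B 0 0
    rw [div_mul_eq_mul_div, eq_div_iff hdetB, e0]
  · show A 0 1 = m / Δ * B 0 1
    rw [div_mul_eq_mul_div, eq_div_iff hdetB, e1]
  · show A 1 0 = m / Δ * B 1 0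
    rw [div_mul_eq_mul_div, eq_div_iff hdetB, e2]
  · show A 1 1 = m / Δ * B 1 1
    rw [div_mul_eq_mul_div, eq_div_iff hdetB, e3]

open IntermediateField in
/-- automorphisms which preserve `Λ(x)` act by Möbius transformations -/
lemma exists_MR {x : F} (hx : Transcendental Λ x) (σ : F ≃ₐ[Λ] F) (h1 : σ x ∈ Λ⟮x⟯)
    (h2 : σ⁻¹ x ∈ Λ⟮x⟯) : ∃ A : Matrix (Fin 2) (Fin 2) Λ, MR x σ A := by
  let e := RatFunc.algEquivOfTranscendental x hx
  let ι : RatFunc Λ →ₐ[Λ] F := (IntermediateField.val _).comp e.toAlgHom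
  have hιX : ι RatFunc.X = x := RatFunc.algEquivOfTranscendental_X x hx
  let f : RatFunc Λ := e.symm ⟨σ x, h1⟩
  have hιf : ι f = σ x := by
    show ((e (e.symm ⟨σ x, h1⟩) : Λ⟮x⟯) : F) = σ x
    rw [AlgEquiv.apply_symm_apply]
  -- `f` generates
  have hgen : Λ⟮f⟯ = ⊤ := by
    rw [_root_.eq_top_iff, ← RatFunc.adjoin_X, adjoin_simple_le_iff]
    have h3 : x ∈ Λ⟮σ x⟯ := by
      have h4 : σ (σ⁻¹ x) ∈ (Λ⟮x⟯).map (σ : F →ₐ[Λ] F) := ⟨_, h2, rfl⟩
      rw [IntermediateField.adjoin_map, Set.image_singleton] at h4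
      have h5 : σ (σ⁻¹ x) = x := by
        have : (σ * σ⁻¹) x = x := by rw [mul_inv_cancel]; rfl
        exact this
      rw [h5] at h4
      exact h4
    have h6 : x ∈ (Λ⟮f⟯).map ι := by
      rw [IntermediateField.adjoin_map, Set.image_singleton, hιf]
      exact h3
    obtain ⟨y, hy, hy2⟩ := h6
    have h7 : y = RatFunc.X := ι.toRingHom.injective (hy2.trans hιX.symm)
    rw [← h7]
    exact hy
  have hdeg : max f.num.natDegree f.denom.natDegree = 1 := by
    rw [← RatFunc.finrank_eq_max_natDegree, hgen]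
    exact IntermediateField.finrank_top
  have hnum : f.num.natDegree ≤ 1 := (le_max_left _ _).trans hdeg.le
  have hden : f.denom.natDegree ≤ 1 := (le_max_right _ _).trans hdeg.le
  obtain ⟨a, b, hab⟩ : ∃ a b : Λ, f.num = Polynomial.C a * Polynomial.X + Polynomial.C b :=
    ⟨_, _, Polynomial.eq_X_add_C_of_natDegree_le_one hnum⟩
  obtain ⟨c, d, hcd⟩ : ∃ c d : Λ, f.denom = Polynomial.C c * Polynomial.X + Polynomial.C d :=
    ⟨_, _, Polynomial.eq_X_add_C_of_natDegree_le_one hden⟩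
  have hσx : σ x = (algebraMap Λ F a * x + algebraMap Λ F b) /
      (algebraMap Λ F c * x + algebraMap Λ F d) := by
    have h8 : ((e f : Λ⟮x⟯) : F) = Polynomial.aeval x f.num / Polynomial.aeval x f.denom :=
      RatFunc.algEquivOfTranscendental_apply x hx f
    have h9 : ((e f : Λ⟮x⟯) : F) = σ x := hιf
    rw [h9, hab, hcd] at h8
    simpa using h8
  have hden0 : algebraMap Λ F c * x + algebraMap Λ F d ≠ 0 := by
    intro h
    have h10 : (0 : F) = algebraMap Λ F 0 * x ^ 2 + algebraMap Λ F c * x + algebraMap Λ F d := by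
      rw [map_zero, zero_mul, zero_add, h]
    obtain ⟨-, hc0, hd0⟩ := indep hx h10.symm
    apply f.denom_ne_zero
    rw [hcd, hc0, hd0]
    simp
  have hσ0 : Transcendental Λ (σ x) := by
    intro halg
    have h11 := IsAlgebraic.algHom (σ⁻¹ : F ≃ₐ[Λ] F).toAlgHom halg
    have h12 : (σ⁻¹ : F ≃ₐ[Λ] F).toAlgHom (σ x) = x := by
      have : (σ⁻¹ * σ) x = x := by rw [inv_mul_cancel]; rfl
      exact this
    rw [h12] at h11
    exact hx h11
  refine ⟨!![a, b; c, d], ?_, (algebraMap Λ F c * x + algebraMap Λ F d)⁻¹, inv_ne_zero hden0, ?_, ?_⟩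
  · rw [Matrix.det_fin_two_of]
    intro hdet
    apply hσ0
    -- the value is a constant
    by_cases hc0 : c = 0
    · have hd0 : d ≠ 0 := by
        rintro rfl
        apply hden0
        rw [hc0]
        simp
      have ha0 : a = 0 := by
        rw [hc0, mul_zero, sub_zero] at hdet
        exact (mul_eq_zero.1 hdet).resolve_right hd0
      rw [hσx, ha0, hc0, map_zero, zero_mul, zero_add, zero_add, ← map_div₀]
      exact isAlgebraic_algebraMap _
    · have : σ x = algebraMap Λ F (a / c) := by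
        rw [hσx, div_eq_iff hden0, map_div₀]
        have hcF : algebraMap Λ F c ≠ 0 := by rwa [Ne, map_eq_zero]
        field_simp
        have h13 : algebraMap Λ F a * algebraMap Λ F d = algebraMap Λ F b * algebraMap Λ F c := by
          rw [← map_mul, ← map_mul, sub_eq_zero.1 hdet]
        linear_combination -h13
      rw [this]
      exact isAlgebraic_algebraMap _
  · simp only [Matrix.of_apply, Matrix.cons_val', Matrix.cons_val_zero, Matrix.cons_val_one,
      Matrix.cons_val_fin_one]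
    rw [hσx, div_eq_inv_mul]
  · simp only [Matrix.of_apply, Matrix.cons_val', Matrix.cons_val_zero, Matrix.cons_val_one,
      Matrix.cons_val_fin_one]
    rw [inv_mul_cancel₀ hden0]

open IntermediateField in
/-- infinitely `p`-divisible automorphisms of `Λ(x)` have finite order -/
theorem finite_order_step {p : ℕ} [hp : Fact p.Prime] [CharP Λ p] (hΛ : Perf Λ p) {x : F}
    (hx : Transcendental Λ x) (c : F ≃ₐ[Λ] F)
    (hc : ∀ r : ℕ, ∃ d : F ≃ₐ[Λ] F, d ^ p ^ r = c ∧ d x ∈ Λ⟮x⟯ ∧ d⁻¹ x ∈ Λ⟮x⟯) :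
    ∃ N : ℕ, 1 ≤ N ∧ (c ^ N) x = x := by
  obtain ⟨d0, hd0, h1, h2⟩ := hc 0
  rw [pow_zero, pow_one] at hd0
  rw [hd0] at h1 h2
  obtain ⟨A, hA⟩ := exists_MR hx c h1 h2
  obtain ⟨N, l, hN, hl, hAN⟩ := scalar_power hΛ A hA.1 (by
    intro r
    obtain ⟨d, hd, h3, h4⟩ := hc r
    obtain ⟨B, hB⟩ := exists_MR hx d h3 h4
    have h5 := hB.pow (p ^ r)
    rw [hd] at h5
    obtain ⟨l, hl, e⟩ := hA.unique hx h5
    exact ⟨B, l, hB.1, hl, e⟩)
  refine ⟨N, hN, ?_⟩
  have h6 := hA.pow N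
  rw [hAN] at h6
  exact h6.fix

end moebius

end Pool.Agent.W2helper35.CR
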