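import Mathlib

set_option autoImplicit false
set_option linter.unusedSectionVars false

/-!
Reduction of rational functions modulo a valuation ring of the field of constants.
-/

namespace Pool.Agent.W2helper35.CR

open MvPolynomial

universe u v

section

variable {K : Type u} [Field K] (O : ValuationSubring K) {n : ℕ}
  {L : Type u} [Field L] [Algebra (MvPolynomial (Fin n) K) L]
  {F : Type u} [Field F] [Algebra (MvPolynomial (Fin n) (IsLocalRing.ResidueField O)) F]

/-- polynomials over the valuation ring as elements of `L` -/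
noncomputable def ev : MvPolynomial (Fin n) O →+* L :=
  (algebraMap (MvPolynomial (Fin n) K) L).comp (MvPolynomial.map (algebraMap O K))

/-- reduction of polynomials over the valuation ring -/
noncomputable def rd : MvPolynomial (Fin n) O →+* F :=
  (algebraMap (MvPolynomial (Fin n) (IsLocalRing.ResidueField O)) F).comp
    (MvPolynomial.map (IsLocalRing.residue O))

/-- `g` is the reduction of `f` -/
def Rel (f : L) (g : F) : Prop :=
  ∃ a b : MvPolynomial (Fin n) O, rd O (F := F) b ≠ 0 ∧ f * ev O b = ev O a ∧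
    g * rd O b = rd O a

variable [IsFractionRing (MvPolynomial (Fin n) K) L]

lemma ev_inj : Function.Injective (ev O : MvPolynomial (Fin n) O →+* L) := by
  unfold ev
  rw [RingHom.coe_comp]
  exact (IsFractionRing.injective _ _).comp
    (MvPolynomial.map_injective _ (IsFractionRing.injective O K))

lemma ev_ne {b : MvPolynomial (Fin n) O} (h : rd O (F := F) b ≠ 0) : ev O (L := L) b ≠ 0 := by
  intro h1
  apply h
  rw [ev_inj O (L := L) (h1.trans (map_zero _).symm), map_zero]

variable {O}

lemma Rel.unique {f : L} {g g' : F} (h : Rel O (n := n) f g) (h' : Rel O (n := n) f g') :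
    g = g' := by
  obtain ⟨a, b, hb, h1, h2⟩ := h
  obtain ⟨a', b', hb', h1', h2'⟩ := h'
  have e : a * b' = a' * b := by
    apply ev_inj O (L := L)
    rw [map_mul, map_mul, ← h1, ← h1']
    ring
  have e2 := congrArg (rd O (F := F)) e
  rw [map_mul, map_mul, ← h2, ← h2'] at e2
  have e3 : (g - g') * (rd O b * rd O b') = 0 := by linear_combination e2
  rcases mul_eq_zero.1 e3 with h3 | h3
  · exact sub_eq_zero.1 h3
  · exact absurd h3 (mul_ne_zero hb hb')

omit [IsFractionRing (MvPolynomial (Fin n) K) L] in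
lemma Rel.add {f f' : L} {g g' : F} (h : Rel O (n := n) f g) (h' : Rel O (n := n) f' g') :
    Rel O (n := n) (f + f') (g + g') := by
  obtain ⟨a, b, hb, h1, h2⟩ := h
  obtain ⟨a', b', hb', h1', h2'⟩ := h'
  refine ⟨a * b' + a' * b, b * b', ?_, ?_, ?_⟩
  · rw [map_mul]; exact mul_ne_zero hb hb'
  · rw [map_mul, map_add, map_mul, map_mul, ← h1, ← h1']; ring
  · rw [map_mul, map_add, map_mul, map_mul, ← h2, ← h2']; ring

omit [IsFractionRing (MvPolynomial (Fin n) K) L] in
lemma Rel.mul {f f' : L} {g g' : F} (h : Rel O (n := n) f g) (h' : Rel O (n := n) f' g') :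
    Rel O (n := n) (f * f') (g * g') := by
  obtain ⟨a, b, hb, h1, h2⟩ := h
  obtain ⟨a', b', hb', h1', h2'⟩ := h'
  refine ⟨a * a', b * b', ?_, ?_, ?_⟩
  · rw [map_mul]; exact mul_ne_zero hb hb'
  · rw [map_mul, map_mul, ← h1, ← h1']; ring
  · rw [map_mul, map_mul, ← h2, ← h2']; ring

omit [IsFractionRing (MvPolynomial (Fin n) K) L] in
lemma Rel.neg {f : L} {g : F} (h : Rel O (n := n) f g) : Rel O (n := n) (-f) (-g) := by
  obtain ⟨a, b, hb, h1, h2⟩ := h
  exact ⟨-a, b, hb, by rw [map_neg, ← h1]; ring, by rw [map_neg, ← h2]; ring⟩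

omit [IsFractionRing (MvPolynomial (Fin n) K) L] in
lemma Rel.sub {f f' : L} {g g' : F} (h : Rel O (n := n) f g) (h' : Rel O (n := n) f' g') :
    Rel O (n := n) (f - f') (g - g') := by
  rw [sub_eq_add_neg, sub_eq_add_neg]
  exact h.add h'.neg

variable (O) (L F)

omit [IsFractionRing (MvPolynomial (Fin n) K) L] in
lemma rel_ev (a : MvPolynomial (Fin n) O) : Rel O (n := n) (ev O a : L) (rd O a : F) :=
  ⟨a, 1, by rw [map_one]; exact one_ne_zero, by rw [map_one, mul_one], by rw [map_one, mul_one]⟩

omit [IsFractionRing (MvPolynomial (Fin n) K) L] in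
lemma rel_zero : Rel O (n := n) (0 : L) (0 : F) := by
  have h := rel_ev O L F (0 : MvPolynomial (Fin n) O)
  rwa [map_zero, map_zero] at h

omit [IsFractionRing (MvPolynomial (Fin n) K) L] in
lemma rel_one : Rel O (n := n) (1 : L) (1 : F) := by
  have h := rel_ev O L F (1 : MvPolynomial (Fin n) O)
  rwa [map_one, map_one] at h

variable {O L F}

lemma Rel.inv {f : L} {g : F} (h : Rel O (n := n) f g) (hg : g ≠ 0) :
    Rel O (n := n) f⁻¹ g⁻¹ := by
  obtain ⟨a, b, hb, h1, h2⟩ := h
  have ha : rd O (F := F) a ≠ 0 := by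
    rw [← h2]; exact mul_ne_zero hg hb
  have ha' : ev O (L := L) a ≠ 0 := ev_ne O ha
  have hf : f ≠ 0 := by
    rintro rfl
    rw [zero_mul] at h1
    exact ha' h1.symm
  refine ⟨b, a, ha, ?_, ?_⟩
  · rw [← h1, inv_mul_cancel_left₀ hf]
  · rw [← h2, inv_mul_cancel_left₀ hg]

lemma Rel.ne_zero {f : L} {g : F} (h : Rel O (n := n) f g) (hg : g ≠ 0) : f ≠ 0 := by
  rintro rfl
  exact hg (h.unique (rel_zero O L F))

lemma Rel.div {f f' : L} {g g' : F} (h : Rel O (n := n) f g) (h' : Rel O (n := n) f' g')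
    (hg : g' ≠ 0) : Rel O (n := n) (f / f') (g / g') := by
  rw [div_eq_mul_inv, div_eq_mul_inv]
  exact h.mul (h'.inv hg)

omit [IsFractionRing (MvPolynomial (Fin n) K) L] in
lemma exists_rel [IsFractionRing (MvPolynomial (Fin n) K) L]
    [IsFractionRing (MvPolynomial (Fin n) (IsLocalRing.ResidueField O)) F] (g : F) :
    ∃ f : L, Rel O (n := n) f g := by
  obtain ⟨a, b, hb, rfl⟩ := IsFractionRing.div_surjective
    (A := MvPolynomial (Fin n) (IsLocalRing.ResidueField O)) g
  have hsurj := MvPolynomial.map_surjective (σ := Fin n) (IsLocalRing.residue O)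
    IsLocalRing.residue_surjective
  obtain ⟨a', rfl⟩ := hsurj a
  obtain ⟨b', rfl⟩ := hsurj b
  have hb' : rd O (F := F) b' ≠ 0 := by
    have := nonZeroDivisors.ne_zero hb
    intro h
    exact this (IsFractionRing.injective _ F (h.trans (map_zero _).symm))
  exact ⟨ev O a' / ev O b', (rel_ev O L F a').div (rel_ev O L F b') hb'⟩

/-- induction: ring homomorphisms which are related at the generators -/
lemma rel_ind {T : Type v} [CommRing T] (θ : MvPolynomial (Fin n) T →+* L)
    (ψ : MvPolynomial (Fin n) T →+* F) (h0 : ∀ t : T, Rel O (n := n) (θ (C t)) (ψ (C t)))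
    (h1 : ∀ i, Rel O (n := n) (θ (X i)) (ψ (X i))) (a : MvPolynomial (Fin n) T) :
    Rel O (n := n) (θ a) (ψ a) := by
  induction a using MvPolynomial.induction_on with
  | C t => exact h0 t
  | add p q hp hq => rw [map_add, map_add]; exact hp.add hq
  | mul_X p i hp => rw [map_mul, map_mul]; exact hp.mul (h1 i)

end

section

variable {K : Type u} [Field K] {O : ValuationSubring K} {n : ℕ}
  {L : Type u} [Field L] [Algebra (MvPolynomial (Fin n) K) L]
  [IsFractionRing (MvPolynomial (Fin n) K) L]
  [Algebra K L] [IsScalarTower K (MvPolynomial (Fin n) K) L]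
  {F : Type u} [Field F] [Algebra (MvPolynomial (Fin n) (IsLocalRing.ResidueField O)) F]
  [Algebra (IsLocalRing.ResidueField O) F]
  [IsScalarTower (IsLocalRing.ResidueField O)
    (MvPolynomial (Fin n) (IsLocalRing.ResidueField O)) F]
  [IsFractionRing (MvPolynomial (Fin n) (IsLocalRing.ResidueField O)) F]

/-- `φ` is the reduction of the automorphism `h` -/
def Red (O : ValuationSubring K) {n : ℕ}
    {L : Type u} [Field L] [Algebra (MvPolynomial (Fin n) K) L] [Algebra K L]
    {F : Type u} [Field F] [Algebra (MvPolynomial (Fin n) (IsLocalRing.ResidueField O)) F]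
    [Algebra (IsLocalRing.ResidueField O) F]
    (h : L ≃ₐ[K] L) (φ : F →ₐ[IsLocalRing.ResidueField O] F) : Prop :=
  ∀ f g, Rel O (n := n) f g → Rel O (n := n) (h f) (φ g)

omit [IsFractionRing (MvPolynomial (Fin n) K) L]
  [IsFractionRing (MvPolynomial (Fin n) (IsLocalRing.ResidueField O)) F]
  [IsScalarTower K (MvPolynomial (Fin n) K) L] [IsScalarTower (IsLocalRing.ResidueField O)
    (MvPolynomial (Fin n) (IsLocalRing.ResidueField O)) F] in
lemma Red.mul {h h' : L ≃ₐ[K] L} {φ φ' : F →ₐ[IsLocalRing.ResidueField O] F}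
    (H : Red O (n := n) h φ) (H' : Red O (n := n) h' φ') :
    Red O (n := n) (h * h') (φ.comp φ') := fun f g hfg => H _ _ (H' f g hfg)

omit [IsFractionRing (MvPolynomial (Fin n) K) L]
  [IsFractionRing (MvPolynomial (Fin n) (IsLocalRing.ResidueField O)) F]
  [IsScalarTower K (MvPolynomial (Fin n) K) L] [IsScalarTower (IsLocalRing.ResidueField O)
    (MvPolynomial (Fin n) (IsLocalRing.ResidueField O)) F] in
lemma Red.one : Red O (n := n) (1 : L ≃ₐ[K] L) (AlgHom.id (IsLocalRing.ResidueField O) F) :=
  fun _ _ hfg => hfg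

omit [IsScalarTower K (MvPolynomial (Fin n) K) L] [IsScalarTower (IsLocalRing.ResidueField O)
    (MvPolynomial (Fin n) (IsLocalRing.ResidueField O)) F] in
lemma Red.unique {h : L ≃ₐ[K] L} {φ φ' : F →ₐ[IsLocalRing.ResidueField O] F}
    (H : Red O (n := n) h φ) (H' : Red O (n := n) h φ') : φ = φ' := by
  ext g
  obtain ⟨f, hf⟩ := exists_rel (O := O) (n := n) (L := L) g
  exact (H f g hf).unique (H' f g hf)

lemma ev_C (t : O) : ev O (L := L) (n := n) (C t) = algebraMap K L t := by
  unfold ev
  rw [RingHom.comp_apply, MvPolynomial.map_C, IsScalarTower.algebraMap_apply K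
    (MvPolynomial (Fin n) K) L]
  rfl

omit [IsFractionRing (MvPolynomial (Fin n) K) L] [Algebra K L]
  [IsScalarTower K (MvPolynomial (Fin n) K) L] in
lemma ev_X (i : Fin n) : ev O (L := L) (n := n) (X i) =
    algebraMap (MvPolynomial (Fin n) K) L (X i) := by
  unfold ev
  rw [RingHom.comp_apply, MvPolynomial.map_X]

omit [IsFractionRing (MvPolynomial (Fin n) (IsLocalRing.ResidueField O)) F] in
lemma rd_C (t : O) : rd O (F := F) (n := n) (C t) =
    algebraMap (IsLocalRing.ResidueField O) F (IsLocalRing.residue O t) := by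
  unfold rd
  rw [RingHom.comp_apply, MvPolynomial.map_C, IsScalarTower.algebraMap_apply
    (IsLocalRing.ResidueField O) (MvPolynomial (Fin n) (IsLocalRing.ResidueField O)) F]
  rfl

omit [IsFractionRing (MvPolynomial (Fin n) (IsLocalRing.ResidueField O)) F]
  [Algebra (IsLocalRing.ResidueField O) F] [IsScalarTower (IsLocalRing.ResidueField O)
    (MvPolynomial (Fin n) (IsLocalRing.ResidueField O)) F] in
lemma rd_X (i : Fin n) : rd O (F := F) (n := n) (X i) =
    algebraMap (MvPolynomial (Fin n) (IsLocalRing.ResidueField O)) F (X i) := by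
  unfold rd
  rw [RingHom.comp_apply, MvPolynomial.map_X]

lemma rel_const (t : O) : Rel O (n := n) (algebraMap K L t)
    (algebraMap (IsLocalRing.ResidueField O) F (IsLocalRing.residue O t)) := by
  have h := rel_ev O L F (C t : MvPolynomial (Fin n) O)
  rwa [ev_C, rd_C] at h

/-- an automorphism with algebraically independent reductions of the coordinates has a reduction -/
lemma red_of (h : L ≃ₐ[K] L) (y : Fin n → F)
    (hy : ∀ i, Rel O (n := n) (h (algebraMap (MvPolynomial (Fin n) K) L (X i))) (y i))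
    (hinj : Function.Injective
      (aeval y : MvPolynomial (Fin n) (IsLocalRing.ResidueField O) →ₐ[_] F)) :
    ∃ φ : F →ₐ[IsLocalRing.ResidueField O] F,
      (∀ i, φ (algebraMap (MvPolynomial (Fin n) (IsLocalRing.ResidueField O)) F (X i)) = y i) ∧
      Red O (n := n) h φ := by
  let φ : F →ₐ[IsLocalRing.ResidueField O] F := IsFractionRing.liftAlgHom hinj
  have hφ : ∀ a, φ (algebraMap (MvPolynomial (Fin n) (IsLocalRing.ResidueField O)) F a) =
      aeval y a := by
    intro a
    show IsFractionRing.liftAlgHom hinj _ = _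
    rw [IsFractionRing.liftAlgHom_apply, IsFractionRing.lift_algebraMap]
    rfl
  have key : ∀ a : MvPolynomial (Fin n) O, Rel O (n := n) (h (ev O a)) (φ (rd O a)) := by
    intro a
    refine rel_ind (O := O) ((h : L →+* L).comp (ev O)) ((φ : F →+* F).comp (rd O)) ?_ ?_ a
    · intro t
      show Rel O (n := n) (h (ev O (C t))) (φ (rd O (C t)))
      rw [ev_C, rd_C, h.commutes, φ.commutes]
      exact rel_const t
    · intro i
      show Rel O (n := n) (h (ev O (X i))) (φ (rd O (X i)))
      rw [ev_X, rd_X, hφ, aeval_X]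
      exact hy i
  refine ⟨φ, fun i => by rw [hφ, aeval_X], ?_⟩
  rintro f g ⟨a, b, hb, h1, h2⟩
  have hb' : ev O (L := L) b ≠ 0 := ev_ne O hb
  have e1 : f = ev O a / ev O b := by rw [eq_div_iff hb', h1]
  have e2 : g = rd O a / rd O b := by rw [eq_div_iff hb, h2]
  rw [e1, e2, map_div₀, map_div₀]
  exact (key a).div (key b) (by rw [Ne, map_eq_zero]; exact hb)

end

end Pool.Agent.W2helper35.CR
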