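import Pool.Agent.W2helper35.CR.Deep
import Pool.Agent.H26R2.IdemLI.Lin

set_option autoImplicit false
set_option linter.unusedSectionVars false

/-!
Valuation rings of a field of characteristic zero, with large residue characteristic, for which
finitely many given elements are units with reductions in a finite field.
-/

namespace Pool.Agent.W2helper35.CR

open MvPolynomial

universe u v

/-- For every finite set `S` of constants there are a prime `p` with the property `P` and a valuation
ring of `K`, with `p` in its maximal ideal, such that the nonzero elements of `S` are units with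
reductions in a finite field. -/
def ValFor (K : Type u) [Field K] (P : ℕ → Prop) : Prop :=
  ∀ S : Finset K, ∃ p : ℕ, p.Prime ∧ P p ∧ ∃ (O : ValuationSubring K) (E : Type u) (_ : Field E)
    (_ : Finite E) (e : E →+* IsLocalRing.ResidueField O), IsLocalRing.residue O (p : O) = 0 ∧
      ∀ s ∈ S, ∃ hs : s ∈ O, (s ≠ 0 → IsLocalRing.residue O ⟨s, hs⟩ ≠ 0) ∧
        ∃ t : E, e t = IsLocalRing.residue O ⟨s, hs⟩

theorem exists_val_of_ideal {K : Type u} [Field K] (S S' : Finset K) (h1 : S ⊆ S')
    (h2 : ∀ s ∈ S, s⁻¹ ∈ S') (p : ℕ) (I : Ideal (Algebra.adjoin ℤ (S' : Set K)))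
    (hpI : ((p : ℕ) : Algebra.adjoin ℤ (S' : Set K)) ∈ I)
    (hfin : Finite (Algebra.adjoin ℤ (S' : Set K) ⧸ I)) (hIne : I ≠ ⊤) :
    ∃ (O : ValuationSubring K) (E : Type u) (_ : Field E) (_ : Finite E)
      (e : E →+* IsLocalRing.ResidueField O), IsLocalRing.residue O (p : O) = 0 ∧
      ∀ s ∈ S, ∃ hs : s ∈ O, (s ≠ 0 → IsLocalRing.residue O ⟨s, hs⟩ ≠ 0) ∧
        ∃ t : E, e t = IsLocalRing.residue O ⟨s, hs⟩ := by
  classical
  let A : Subring K := (Algebra.adjoin ℤ (S' : Set K)).toSubring
  obtain ⟨M, hMmax, hIM⟩ := Ideal.exists_le_maximal I hIne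
  let M' : Ideal A := M
  have hM'max : M'.IsMaximal := hMmax
  obtain ⟨O, hAO, hMO⟩ := Ideal.image_subset_nonunits_valuationSubring M' hM'max.ne_top
  let fld : Field (A ⧸ M') := Ideal.Quotient.field M'
  have hfinM : Finite (A ⧸ M') := by
    have hle : (I : Ideal A) ≤ M' := hIM
    have hfin' : Finite (A ⧸ (I : Ideal A)) := hfin
    exact Finite.of_surjective (Ideal.Quotient.factor hle) (Ideal.Quotient.factor_surjective hle)
  have hnon : ∀ a : A, a ∈ M' → IsLocalRing.residue O ⟨a, hAO a.2⟩ = 0 := by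
    intro a ha
    rw [IsLocalRing.residue_eq_zero_iff]
    have h1 : (a : K) ∈ O.nonunits := hMO ⟨a, ha, rfl⟩
    rw [← SetLike.mem_coe, ← O.image_maximalIdeal] at h1
    obtain ⟨b, hb, hb2⟩ := h1
    have : b = ⟨a, hAO a.2⟩ := Subtype.ext hb2
    rw [← this]
    exact hb
  let e : A ⧸ M' →+* IsLocalRing.ResidueField O :=
    Ideal.Quotient.lift M' ((IsLocalRing.residue O).comp (Subring.inclusion hAO)) hnon
  refine ⟨O, A ⧸ M', fld, hfinM, e, ?_, ?_⟩
  · have h1 := hnon ((p : ℕ) : A) (hIM hpI)
    have h2 : (⟨((p : ℕ) : A), hAO ((p : ℕ) : A).2⟩ : O) = ((p : ℕ) : O) := by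
      apply Subtype.ext
      show (((p : ℕ) : A) : K) = (((p : ℕ) : O) : K)
      rw [show (((p : ℕ) : O) : K) = (p : K) from map_natCast (algebraMap O K) p]
      exact map_natCast A.subtype p
    rw [← h2]
    exact h1
  · intro s hs
    have hsA : s ∈ A := Algebra.subset_adjoin (Finset.mem_coe.2 (h1 hs))
    have hsA' : s⁻¹ ∈ A := Algebra.subset_adjoin (Finset.mem_coe.2 (h2 s hs))
    refine ⟨hAO hsA, fun h0 h1 => ?_, Ideal.Quotient.mk M' ⟨s, hsA⟩, rfl⟩
    have h2 : (⟨s, hAO hsA⟩ : O) * ⟨s⁻¹, hAO hsA'⟩ = 1 := Subtype.ext (mul_inv_cancel₀ h0)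
    have h3 := congrArg (IsLocalRing.residue O) h2
    rw [map_mul, h1, zero_mul, map_one] at h3
    exact zero_ne_one h3

theorem valFor_zero (K : Type u) [Field K] [CharZero K] (m : ℕ) : ValFor K (fun p => m < p) := by
  classical
  intro S
  obtain ⟨p, hp, hmp, I, hpI, hfin, hI⟩ :=
    Pool.Agent.H26R2.IdemLI.exists_ideal (S ∪ S.image (fun x => x⁻¹)) m
  have hIne : I ≠ ⊤ := by
    rintro rfl
    have h1 := hI 1 (fun k => by rw [Ideal.top_pow]; trivial)
    exact one_ne_zero h1
  exact ⟨p, hp, hmp, exists_val_of_ideal S _ Finset.subset_union_left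
    (fun s hs => Finset.mem_union_right _ (Finset.mem_image_of_mem _ hs)) p I hpI hfin hIne⟩

theorem valFor_p (K : Type u) [Field K] (p : ℕ) (hp : p.Prime) [CharP K p] :
    ValFor K (fun q => q = p) := by
  classical
  intro S
  let S' : Finset K := S ∪ S.image (fun x => x⁻¹)
  obtain ⟨I, hImax⟩ := Ideal.exists_maximal (Algebra.adjoin ℤ (S' : Set K))
  have hp0 : ((p : ℕ) : Algebra.adjoin ℤ (S' : Set K)) = 0 := by
    apply Subtype.ext
    show (((p : ℕ) : Algebra.adjoin ℤ (S' : Set K)) : K) = 0
    rw [show (((p : ℕ) : Algebra.adjoin ℤ (S' : Set K)) : K) = (p : K) from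
      map_natCast (Algebra.adjoin ℤ (S' : Set K)).val p]
    exact CharP.cast_eq_zero K p
  have hpI : ((p : ℕ) : Algebra.adjoin ℤ (S' : Set K)) ∈ I := by
    rw [hp0]
    exact I.zero_mem
  have hfin : Finite (Algebra.adjoin ℤ (S' : Set K) ⧸ I) := by
    let _ : Field (Algebra.adjoin ℤ (S' : Set K) ⧸ I) := Ideal.Quotient.field I
    have hft : Algebra.FiniteType ℤ (Algebra.adjoin ℤ (S' : Set K)) := by
      rw [← Subalgebra.fg_iff_finiteType]
      exact ⟨S', rfl⟩
    have hFp : Fact p.Prime := ⟨hp⟩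
    have hchar : CharP (Algebra.adjoin ℤ (S' : Set K) ⧸ I) p := by
      rw [CharP.charP_iff_prime_eq_zero hp]
      have := Ideal.Quotient.eq_zero_iff_mem.2 hpI
      simpa using this
    let _ : Algebra (ZMod p) (Algebra.adjoin ℤ (S' : Set K) ⧸ I) := ZMod.algebra _ p
    have hft2 : Algebra.FiniteType ℤ (Algebra.adjoin ℤ (S' : Set K) ⧸ I) :=
      Algebra.FiniteType.of_surjective (Ideal.Quotient.mkₐ ℤ I) (Ideal.Quotient.mkₐ_surjective ℤ I)
    have hft3 : Algebra.FiniteType (ZMod p) (Algebra.adjoin ℤ (S' : Set K) ⧸ I) := by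
      have : IsScalarTower ℤ (ZMod p) (Algebra.adjoin ℤ (S' : Set K) ⧸ I) := by
        refine IsScalarTower.of_algebraMap_eq' ?_
        exact RingHom.ext_int _ _
      exact Algebra.FiniteType.of_restrictScalars_finiteType ℤ (ZMod p) _
    have hfin : Module.Finite (ZMod p) (Algebra.adjoin ℤ (S' : Set K) ⧸ I) :=
      finite_of_finite_type_of_isJacobsonRing (ZMod p) _
    exact Module.finite_of_finite (ZMod p)
  exact ⟨p, hp, rfl, exists_val_of_ideal S S' Finset.subset_union_left
    (fun s hs => Finset.mem_union_right _ (Finset.mem_image_of_mem _ hs)) p I hpI hfin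
      hImax.ne_top⟩

/-- elements of the fraction field which are defined over the finite field -/
def InE {k : Type u} [Field k] {E : Type u} [Field E] (e : E →+* k) (n : ℕ) {F : Type u} [Field F]
    [Algebra (MvPolynomial (Fin n) k) F] (g : F) : Prop :=
  ∃ a b : MvPolynomial (Fin n) E, b ≠ 0 ∧
    g * algebraMap (MvPolynomial (Fin n) k) F (MvPolynomial.map e b) =
      algebraMap (MvPolynomial (Fin n) k) F (MvPolynomial.map e a)

section

variable {k : Type u} [Field k] {E : Type u} [Field E] (e : E →+* k) {n : ℕ} {F : Type u} [Field F]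
  [Algebra (MvPolynomial (Fin n) k) F] [IsFractionRing (MvPolynomial (Fin n) k) F]

lemma map_ne {b : MvPolynomial (Fin n) E} (hb : b ≠ 0) :
    algebraMap (MvPolynomial (Fin n) k) F (MvPolynomial.map e b) ≠ 0 := by
  intro h
  apply hb
  apply MvPolynomial.map_injective e e.injective
  rw [map_zero]
  exact IsFractionRing.injective _ F (h.trans (map_zero _).symm)

variable {e}

lemma InE.add {f g : F} (hf : InE e n f) (hg : InE e n g) : InE e n (f + g) := by
  obtain ⟨a, b, hb, h1⟩ := hf
  obtain ⟨a', b', hb', h1'⟩ := hg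
  refine ⟨a * b' + a' * b, b * b', mul_ne_zero hb hb', ?_⟩
  rw [map_mul, map_mul, map_add, map_mul, map_mul, map_add, map_mul, map_mul, ← h1, ← h1']
  ring

lemma InE.mul {f g : F} (hf : InE e n f) (hg : InE e n g) : InE e n (f * g) := by
  obtain ⟨a, b, hb, h1⟩ := hf
  obtain ⟨a', b', hb', h1'⟩ := hg
  refine ⟨a * a', b * b', mul_ne_zero hb hb', ?_⟩
  rw [map_mul, map_mul, map_mul, map_mul, ← h1, ← h1']
  ring

lemma InE.div {f g : F} (hf : InE e n f) (hg : InE e n g) (hg0 : g ≠ 0) : InE e n (f / g) := by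
  obtain ⟨a, b, hb, h1⟩ := hf
  obtain ⟨a', b', hb', h1'⟩ := hg
  have ha' : a' ≠ 0 := by
    rintro rfl
    rw [map_zero, map_zero] at h1'
    rcases mul_eq_zero.1 h1' with h | h
    · exact hg0 h
    · exact map_ne (F := F) e hb' h
  refine ⟨a * b', b * a', mul_ne_zero hb ha', ?_⟩
  rw [map_mul, map_mul, map_mul, map_mul, ← h1, ← h1']
  field_simp

lemma InE.of_map (a : MvPolynomial (Fin n) E) :
    InE e n (algebraMap (MvPolynomial (Fin n) k) F (MvPolynomial.map e a)) :=
  ⟨a, 1, one_ne_zero, by rw [map_one, map_one, mul_one]⟩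

end

section trdeg

variable {k : Type u} [Field k] {n : ℕ} {F : Type u} [Field F]
  [Algebra (MvPolynomial (Fin n) k) F] [IsFractionRing (MvPolynomial (Fin n) k) F]
  [Algebra k F] [IsScalarTower k (MvPolynomial (Fin n) k) F]

/-- if the coordinates are rational functions of the elements `y i` then the `y i` are algebraically
independent -/
theorem injective_of_gen (y : Fin n → F)
    (hy : ∀ i, ∃ a b : MvPolynomial (Fin n) k, aeval y b ≠ 0 ∧
      algebraMap (MvPolynomial (Fin n) k) F (X i) = aeval y a / aeval y b) :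
    Function.Injective (aeval y : MvPolynomial (Fin n) k →ₐ[k] F) := by
  have hX : IsTranscendenceBasis k (fun i : Fin n => algebraMap (MvPolynomial (Fin n) k) F (X i)) := by
    have h1 := IsTranscendenceBasis.mvPolynomial (Fin n) k
    have h2 : Algebra.IsAlgebraic (MvPolynomial (Fin n) k) F :=
      IsLocalization.isAlgebraic F (nonZeroDivisors (MvPolynomial (Fin n) k))
    exact h1.algebraMap_comp
  have hcard : Algebra.trdeg k F = n := by
    have h1 := hX.lift_cardinalMk_eq_trdeg
    simpa using h1.symm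
  have hmem : ∀ p : MvPolynomial (Fin n) k, aeval y p ∈ Algebra.adjoin k (Set.range y) := by
    intro p
    rw [Algebra.adjoin_range_eq_range_aeval]
    exact ⟨p, rfl⟩
  have halg : Algebra.IsAlgebraic (Algebra.adjoin k (Set.range y)) F := by
    have hdiv : ∀ u w : F, u ∈ Algebra.adjoin k (Set.range y) → w ∈ Algebra.adjoin k (Set.range y) →
        IsAlgebraic (Algebra.adjoin k (Set.range y)) (u / w) := by
      intro u w hu hw
      rw [div_eq_mul_inv]
      exact (isAlgebraic_algebraMap (⟨u, hu⟩ : Algebra.adjoin k (Set.range y))).mul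
        (isAlgebraic_algebraMap (⟨w, hw⟩ : Algebra.adjoin k (Set.range y))).inv
    have hpol : ∀ p : MvPolynomial (Fin n) k, IsAlgebraic (Algebra.adjoin k (Set.range y))
        (algebraMap (MvPolynomial (Fin n) k) F p) := by
      intro p
      induction p using MvPolynomial.induction_on with
      | C t =>
        have h1 : algebraMap (MvPolynomial (Fin n) k) F (C t) = algebraMap k F t :=
          (IsScalarTower.algebraMap_apply k (MvPolynomial (Fin n) k) F t).symm
        rw [h1]
        exact isAlgebraic_algebraMap (⟨algebraMap k F t, Subalgebra.algebraMap_mem _ t⟩ :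
          Algebra.adjoin k (Set.range y))
      | add p q hp hq => rw [map_add]; exact hp.add hq
      | mul_X p i hp =>
        rw [map_mul]
        obtain ⟨a, b, -, h1⟩ := hy i
        rw [h1]
        exact hp.mul (hdiv _ _ (hmem a) (hmem b))
    refine ⟨fun g => ?_⟩
    obtain ⟨a, b, -, rfl⟩ := IsFractionRing.div_surjective (A := MvPolynomial (Fin n) k) g
    rw [div_eq_mul_inv]
    exact (hpol a).mul (hpol b).inv
  have := Algebra.IsAlgebraic.isTranscendenceBasis_of_lift_le_trdeg_of_finite k y (by rw [hcard]; simp)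
  exact this.1

end trdeg

end Pool.Agent.W2helper35.CR
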